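import Mathlib
import Pool.Agent.TH703.Cone.Div

/-!
# MP_65ff7c_an (S04892): coordinates in `ℝ³`, and the divergence theorem over a graph
-/

set_option autoImplicit false

open MeasureTheory Set Metric Filter Topology
open scoped ENNReal

namespace Pool.Agent.J4.H72.Cone

open Pool.Agent.TH703.Cone (dv Tst PLE)

/-- the ambient space -/
abbrev V := EuclideanSpace ℝ (Fin 3)

/-- the point with the coordinates `x, z, y` -/
noncomputable def pt (x z y : ℝ) : V := WithLp.toLp 2 ![x, z, y]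

@[simp] lemma pt_zero (x z y : ℝ) : pt x z y 0 = x := rfl
@[simp] lemma pt_one (x z y : ℝ) : pt x z y 1 = z := rfl
@[simp] lemma pt_two (x z y : ℝ) : pt x z y 2 = y := rfl

lemma pt_eta (p : V) : pt (p 0) (p 1) (p 2) = p := by
  ext i
  fin_cases i <;> rfl

/-- the coordinates -/
noncomputable def crd : V ≃ᵐ ℝ × ℝ × ℝ :=
  ((MeasurableEquiv.toLp 2 (Fin 3 → ℝ)).symm.trans
    (MeasurableEquiv.piFinSuccAbove (fun _ : Fin 3 => ℝ) 0)).trans
    (MeasurableEquiv.prodCongr (MeasurableEquiv.refl ℝ) MeasurableEquiv.finTwoArrow)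

lemma crd_apply (p : V) : crd p = (p 0, p 1, p 2) := rfl

lemma crd_symm_apply (q : ℝ × ℝ × ℝ) : crd.symm q = pt q.1 q.2.1 q.2.2 := by
  rw [MeasurableEquiv.symm_apply_eq, crd_apply]
  rfl

lemma crd_mp : MeasurePreserving crd volume volume := by
  have h1 := EuclideanSpace.volume_preserving_symm_measurableEquiv_toLp (Fin 3)
  have h2 := volume_preserving_piFinSuccAbove (fun _ : Fin 3 => ℝ) 0
  have h3 := (MeasurePreserving.id (volume : Measure ℝ)).prod
    (volume_preserving_finTwoArrow ℝ)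
  exact (h1.trans h2).trans h3

/-- the parametrisation -/
noncomputable def P3 (q : ℝ × ℝ × ℝ) : V := pt q.1 q.2.1 q.2.2

lemma P3_eq : P3 = crd.symm := by
  funext q
  rw [crd_symm_apply]
  rfl

lemma P3_mp : MeasurePreserving P3 volume volume := by
  rw [P3_eq]
  exact crd_mp.symm

lemma P3_me : MeasurableEmbedding P3 := by
  rw [P3_eq]
  exact crd.symm.measurableEmbedding

/-- `P3` as a continuous linear map -/
noncomputable def P3L : ℝ × ℝ × ℝ →L[ℝ] V :=
  (ContinuousLinearMap.fst ℝ ℝ (ℝ × ℝ)).smulRight (pt 1 0 0) +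
  ((ContinuousLinearMap.fst ℝ ℝ ℝ).comp (ContinuousLinearMap.snd ℝ ℝ (ℝ × ℝ))).smulRight
    (pt 0 1 0) +
  ((ContinuousLinearMap.snd ℝ ℝ ℝ).comp (ContinuousLinearMap.snd ℝ ℝ (ℝ × ℝ))).smulRight
    (pt 0 0 1)

lemma P3L_apply (q : ℝ × ℝ × ℝ) : P3L q = P3 q := by
  ext i
  fin_cases i <;> simp [P3L, P3, pt]

lemma P3_eq' : P3 = fun q => P3L q := by
  funext q
  exact (P3L_apply q).symm

lemma P3_contDiff : ContDiff ℝ 1 P3 := by
  rw [P3_eq']
  exact P3L.contDiff

lemma P3_continuous : Continuous P3 := P3_contDiff.continuous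

lemma continuous_coord (i : Fin 3) : Continuous (fun p : V => p i) := by
  fun_prop

lemma lintegral_P3 {F : V → ℝ≥0∞} (hF : Measurable F) :
    ∫⁻ p, F p = ∫⁻ x : ℝ, ∫⁻ z : ℝ, ∫⁻ y : ℝ, F (pt x z y) := by
  rw [← P3_mp.lintegral_comp hF]
  have h1 : Measurable fun q : ℝ × ℝ × ℝ => F (P3 q) := hF.comp P3_mp.measurable
  rw [show (volume : Measure (ℝ × ℝ × ℝ)) = (volume : Measure ℝ).prod volume from rfl]
  rw [lintegral_prod _ h1.aemeasurable]
  refine lintegral_congr fun x => ?_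
  have h2 : Measurable fun q : ℝ × ℝ => F (P3 (x, q)) := h1.comp measurable_prodMk_left
  rw [show (volume : Measure (ℝ × ℝ)) = (volume : Measure ℝ).prod volume from rfl]
  rw [lintegral_prod _ h2.aemeasurable]
  rfl

lemma volume_P3 {S : Set V} (hS : MeasurableSet S) :
    volume S = ∫⁻ x : ℝ, ∫⁻ z : ℝ, volume {y : ℝ | pt x z y ∈ S} := by
  have h1 := lintegral_P3 (F := S.indicator 1) (measurable_one.indicator hS)
  rw [lintegral_indicator_one hS] at h1
  rw [h1]
  refine lintegral_congr fun x => lintegral_congr fun z => ?_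
  have hm : MeasurableSet {y : ℝ | pt x z y ∈ S} := by
    have : Measurable fun y : ℝ => pt x z y :=
      P3_continuous.measurable.comp (by fun_prop : Measurable fun y : ℝ => ((x, z, y) : ℝ × ℝ × ℝ))
    exact this hS
  rw [← lintegral_indicator_one hm]
  rfl

end Pool.Agent.J4.H72.Cone
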