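import Pool.Agent.J4.H72.Cone.Base

/-!
# MP_65ff7c_an (S04892): the body
-/

set_option autoImplicit false

open MeasureTheory Set Metric Filter Topology
open scoped ENNReal

namespace Pool.Agent.J4.H72.Cone

/-- the norm of the base -/
noncomputable def nr (γ x z : ℝ) : ℝ := √(x ^ 2 + γ ^ 2 * z ^ 2)

/-- the body -/
def Om (γ ε : ℝ) : Set V := {p | nr γ (p 0) (p 1) + |p 2| / ε < 1}

lemma nr_nonneg (γ x z : ℝ) : 0 ≤ nr γ x z := Real.sqrt_nonneg _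

lemma nr_eq (γ x z : ℝ) : nr γ x z = ‖(⟨x, γ * z⟩ : ℂ)‖ := by
  rw [Complex.norm_def, nr, Complex.normSq_mk]
  congr 1
  ring

lemma nr_sq (γ x z : ℝ) : nr γ x z ^ 2 = x ^ 2 + γ ^ 2 * z ^ 2 :=
  Real.sq_sqrt (by positivity)

lemma abs_le_nr (γ x z : ℝ) : |x| ≤ nr γ x z := by
  apply Real.le_sqrt_of_sq_le
  rw [sq_abs]
  nlinarith [mul_nonneg (sq_nonneg γ) (sq_nonneg z)]

lemma abs_le_nr' {γ : ℝ} (hγ : 0 < γ) (x z : ℝ) : γ * |z| ≤ nr γ x z := by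
  apply Real.le_sqrt_of_sq_le
  rw [mul_pow, sq_abs]
  nlinarith [sq_nonneg x]

lemma nr_le {γ : ℝ} (hγ : 0 ≤ γ) (x z : ℝ) : nr γ x z ≤ |x| + γ * |z| := by
  rw [nr]
  apply Real.sqrt_le_iff.2
  constructor
  · positivity
  · have h1 : (0 : ℝ) ≤ |x| * (γ * |z|) := by positivity
    nlinarith [sq_abs x, sq_abs z]

lemma nr_le_one {γ : ℝ} (hγ : 0 ≤ γ) (hγ1 : γ ≤ 1) (x z : ℝ) : nr γ x z ≤ √(x ^ 2 + z ^ 2) := by
  apply Real.sqrt_le_sqrt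
  have : γ ^ 2 ≤ 1 := by nlinarith
  nlinarith [mul_nonneg (sub_nonneg.2 this) (sq_nonneg z)]

lemma nr_smul {γ t : ℝ} (ht : 0 ≤ t) (x z : ℝ) : nr γ (t * x) (t * z) = t * nr γ x z := by
  rw [nr, nr, show (t * x) ^ 2 + γ ^ 2 * (t * z) ^ 2 = t ^ 2 * (x ^ 2 + γ ^ 2 * z ^ 2) by ring,
    Real.sqrt_mul (sq_nonneg t), Real.sqrt_sq ht]

lemma nr_add (γ x z x' z' : ℝ) : nr γ (x + x') (z + z') ≤ nr γ x z + nr γ x' z' := by
  rw [nr_eq, nr_eq, nr_eq]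
  have : (⟨x + x', γ * (z + z')⟩ : ℂ) = ⟨x, γ * z⟩ + ⟨x', γ * z'⟩ := by
    apply Complex.ext <;> simp
    ring
  rw [this]
  exact norm_add_le _ _

lemma nr_neg (γ x z : ℝ) : nr γ (-x) (-z) = nr γ x z := by simp [nr]

lemma nr_abs (γ x z : ℝ) : nr γ |x| |z| = nr γ x z := by simp [nr, sq_abs]

/-- gauge -/
noncomputable def gau (γ ε : ℝ) (p : V) : ℝ := nr γ (p 0) (p 1) + |p 2| / ε

lemma mem_Om {γ ε : ℝ} {p : V} : p ∈ Om γ ε ↔ gau γ ε p < 1 := Iff.rfl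

lemma gau_smul {γ ε t : ℝ} (ht : 0 ≤ t) (p : V) : gau γ ε (t • p) = t * gau γ ε p := by
  simp only [gau, PiLp.smul_apply, smul_eq_mul]
  rw [nr_smul ht, abs_mul, abs_of_nonneg ht]
  ring

lemma gau_add {γ ε : ℝ} (hε : 0 < ε) (p q : V) : gau γ ε (p + q) ≤ gau γ ε p + gau γ ε q := by
  simp only [gau, PiLp.add_apply]
  have h1 := nr_add γ (p 0) (p 1) (q 0) (q 1)
  have h2 : |p 2 + q 2| / ε ≤ |p 2| / ε + |q 2| / ε := by
    rw [← add_div]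
    exact div_le_div_of_nonneg_right (abs_add_le _ _) hε.le
  linarith

lemma gau_neg {γ ε : ℝ} (p : V) : gau γ ε (-p) = gau γ ε p := by
  simp only [gau, PiLp.neg_apply, abs_neg]
  rw [nr_neg]

lemma gau_nonneg {γ ε : ℝ} (hε : 0 < ε) (p : V) : 0 ≤ gau γ ε p := by
  unfold gau
  have := nr_nonneg γ (p 0) (p 1)
  positivity

lemma continuous_gau (γ ε : ℝ) : Continuous (gau γ ε) := by
  unfold gau nr
  fun_prop

lemma Om_open (γ ε : ℝ) : IsOpen (Om γ ε) :=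
  isOpen_lt (continuous_gau γ ε) continuous_const

lemma Om_convex {γ ε : ℝ} (hε : 0 < ε) : Convex ℝ (Om γ ε) := by
  intro p hp q hq a b ha hb hab
  rw [mem_Om] at *
  have h1 := gau_add (γ := γ) hε (a • p) (b • q)
  rw [gau_smul ha, gau_smul hb] at h1
  rcases eq_or_lt_of_le ha with h | h
  · have hb1 : b = 1 := by linarith
    subst hb1
    rw [← h] at h1 ⊢
    simp only [zero_mul, zero_add, one_mul] at h1
    linarith
  · have h2 : a * gau γ ε p < a := by nlinarith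
    have h3 : b * gau γ ε q ≤ b := by nlinarith
    linarith

lemma Om_symm {γ ε : ℝ} {p : V} (hp : p ∈ Om γ ε) : -p ∈ Om γ ε := by
  rw [mem_Om] at *
  rwa [gau_neg]

lemma zero_mem_Om {γ ε : ℝ} : (0 : V) ∈ Om γ ε := by
  rw [mem_Om]
  simp [gau, nr]

lemma Om_coord {γ ε : ℝ} (hγ : 0 < γ) (hε : 0 < ε) {p : V} (hp : p ∈ Om γ ε) :
    |p 0| < 1 ∧ |p 1| < 1 / γ ∧ |p 2| < ε := by
  have h0 : nr γ (p 0) (p 1) + |p 2| / ε < 1 := hp
  have h1 := abs_le_nr γ (p 0) (p 1)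
  have h2 := abs_le_nr' hγ (p 0) (p 1)
  have h3 : 0 ≤ |p 2| / ε := by positivity
  have h4 := nr_nonneg γ (p 0) (p 1)
  refine ⟨by linarith, ?_, ?_⟩
  · rw [lt_div_iff₀ hγ]
    nlinarith
  · have : |p 2| / ε < 1 := by linarith
    rwa [div_lt_one hε] at this

lemma Om_bdd {γ ε : ℝ} (hγ : 0 < γ) (hε : 0 < ε) : Bornology.IsBounded (Om γ ε) := by
  rw [isBounded_iff_forall_norm_le]
  refine ⟨1 + 1 / γ + ε, fun p hp => ?_⟩
  obtain ⟨h1, h2, h3⟩ := Om_coord hγ hε hp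
  rw [EuclideanSpace.norm_eq, Fin.sum_univ_three]
  apply Real.sqrt_le_iff.2
  have hg : 0 < 1 / γ := by positivity
  constructor
  · positivity
  · simp only [Real.norm_eq_abs]
    have a1 : |p 0| ^ 2 ≤ 1 := by nlinarith [abs_nonneg (p 0)]
    have a2 : |p 1| ^ 2 ≤ (1 / γ) ^ 2 := by
      apply pow_le_pow_left₀ (abs_nonneg _) h2.le
    have a3 : |p 2| ^ 2 ≤ ε ^ 2 := by
      apply pow_le_pow_left₀ (abs_nonneg _) h3.le
    nlinarith [mul_pos hg hε]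

lemma Om_vol_fin {γ ε : ℝ} (hγ : 0 < γ) (hε : 0 < ε) : volume (Om γ ε) ≠ ⊤ :=
  (Om_bdd hγ hε).measure_lt_top.ne

lemma pt_mem_Om {γ ε : ℝ} (hε : 0 < ε) {x z y : ℝ} :
    pt x z y ∈ Om γ ε ↔ |y| < ε * (1 - nr γ x z) := by
  rw [mem_Om]
  simp only [gau, pt_zero, pt_one, pt_two]
  constructor
  · intro h
    have : |y| / ε < 1 - nr γ x z := by linarith
    rwa [div_lt_iff₀ hε, mul_comm] at this
  · intro h
    have : |y| / ε < 1 - nr γ x z := by rwa [div_lt_iff₀ hε, mul_comm]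
    linarith

/-- the fibre of a set -/
def fib (A : Set V) (x z : ℝ) : Set ℝ := {y | pt x z y ∈ A}

lemma fib_meas {A : Set V} (hA : MeasurableSet A) (x z : ℝ) : MeasurableSet (fib A x z) := by
  have : Measurable fun y : ℝ => pt x z y :=
    P3_continuous.measurable.comp (by fun_prop : Measurable fun y : ℝ => ((x, z, y) : ℝ × ℝ × ℝ))
  exact this hA

lemma fib_Om {γ ε : ℝ} (hε : 0 < ε) (x z : ℝ) :
    fib (Om γ ε) x z = Ioo (-(ε * (1 - nr γ x z))) (ε * (1 - nr γ x z)) := by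
  ext y
  simp only [fib, mem_setOf_eq, pt_mem_Om hε, abs_lt, mem_Ioo]

lemma vol_fib_Om {γ ε : ℝ} (hε : 0 < ε) (x z : ℝ) :
    volume (fib (Om γ ε) x z) = ENNReal.ofReal (2 * ε * (1 - nr γ x z)) := by
  rw [fib_Om hε, Real.volume_Ioo]
  congr 1
  ring

lemma vol_fib_Om_le {γ ε : ℝ} (hε : 0 < ε) (x z : ℝ) :
    volume (fib (Om γ ε) x z) ≤ ENNReal.ofReal (2 * ε) := by
  rw [vol_fib_Om hε]
  apply ENNReal.ofReal_le_ofReal
  nlinarith [nr_nonneg γ x z]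

/-- volume of a box -/
lemma vol_box (a b c a' b' c' : ℝ) :
    volume {p : V | p 0 ∈ Ioo a a' ∧ p 1 ∈ Ioo b b' ∧ p 2 ∈ Ioo c c'} =
      ENNReal.ofReal (a' - a) * (ENNReal.ofReal (b' - b) * ENNReal.ofReal (c' - c)) := by
  have h : P3 ⁻¹' {p : V | p 0 ∈ Ioo a a' ∧ p 1 ∈ Ioo b b' ∧ p 2 ∈ Ioo c c'} =
      Ioo a a' ×ˢ (Ioo b b' ×ˢ Ioo c c') := by
    ext q
    simp [P3]
  rw [← P3_mp.measure_preimage_emb P3_me, h]
  rw [show (volume : Measure (ℝ × ℝ × ℝ)) =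
    (volume : Measure ℝ).prod ((volume : Measure ℝ).prod (volume : Measure ℝ)) from rfl]
  rw [Measure.prod_prod, Measure.prod_prod, Real.volume_Ioo, Real.volume_Ioo, Real.volume_Ioo]

lemma vol_Om_ge {γ ε : ℝ} (hγ : 0 < γ) (hε : 0 < ε) :
    ENNReal.ofReal (ε / (8 * γ)) ≤ volume (Om γ ε) := by
  have hsub : {p : V | p 0 ∈ Ioo (-(1 / 4)) (1 / 4) ∧ p 1 ∈ Ioo (-(1 / (4 * γ))) (1 / (4 * γ)) ∧
      p 2 ∈ Ioo (-(ε / 4)) (ε / 4)} ⊆ Om γ ε := by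
    rintro p ⟨h1, h2, h3⟩
    rw [mem_Ioo, ← abs_lt] at h1 h2 h3
    rw [mem_Om, gau]
    have h4 := nr_le hγ.le (p 0) (p 1)
    have h5 : γ * |p 1| < 1 / 4 := by
      rw [lt_div_iff₀ (by positivity)] at h2
      linarith
    have h6 : |p 2| / ε < 1 / 4 := by
      rw [div_lt_iff₀ hε]; linarith
    linarith
  refine le_trans (le_of_eq ?_) (measure_mono hsub)
  rw [vol_box, ← ENNReal.ofReal_mul (by ring_nf; positivity),
    ← ENNReal.ofReal_mul (by norm_num)]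
  congr 1
  field_simp
  ring

lemma vol_mid {γ ε : ℝ} (hγ : 0 < γ) (hε : 0 < ε) :
    volume (Om γ ε ∩ {p | |p 1| ≤ 2}) ≤ ENNReal.ofReal (20 * ε) := by
  have hsub : Om γ ε ∩ {p | |p 1| ≤ 2} ⊆ {p : V | p 0 ∈ Ioo (-1) 1 ∧ p 1 ∈ Ioo (-(5/2)) (5/2) ∧
      p 2 ∈ Ioo (-ε) ε} := by
    rintro p ⟨h1, h2⟩
    obtain ⟨h3, h4, h5⟩ := Om_coord hγ hε h1
    have h2' : |p 1| ≤ 2 := h2
    refine ⟨?_, ?_, ?_⟩
    · rw [mem_Ioo, ← abs_lt]; exact h3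
    · rw [mem_Ioo, ← abs_lt]; linarith
    · rw [mem_Ioo, ← abs_lt]; exact h5
  refine (measure_mono hsub).trans (le_of_eq ?_)
  rw [vol_box, ← ENNReal.ofReal_mul (by norm_num),
    ← ENNReal.ofReal_mul (by norm_num)]
  congr 1
  ring

end Pool.Agent.J4.H72.Cone
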