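import Pool.Agent.J4.H72.Cone.Base

/-!
# MP_65ff7c_an (S04892): the divergence theorem over the region above a graph
-/

set_option autoImplicit false

open MeasureTheory Set Metric Filter Topology
open scoped ENNReal InnerProductSpace

namespace Pool.Agent.J4.H72.Cone

open Pool.Agent.TH703.Cone (dv Tst PLE)

abbrev R3 := ℝ × ℝ × ℝ

/-- continuous with compact support -/
structure CC {X : Type*} [TopologicalSpace X] (f : X → ℝ) : Prop where
  co : Continuous f
  cs : HasCompactSupport f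

lemma CC.integrable {X : Type*} [TopologicalSpace X] [MeasurableSpace X] [OpensMeasurableSpace X]
    {μ : Measure X} [IsFiniteMeasureOnCompacts μ] {f : X → ℝ} (h : CC f) : Integrable f μ :=
  h.co.integrable_of_hasCompactSupport h.cs

lemma CC.mul {X : Type*} [TopologicalSpace X] {f g : X → ℝ} (h : CC f) (hg : Continuous g) :
    CC (fun x => g x * f x) := ⟨hg.mul h.co, h.cs.mul_left⟩

lemma CC.slice1 {f : R3 → ℝ} (h : CC f) (r : ℝ × ℝ) : CC fun x : ℝ => f (x, r) := by
  have he : IsClosedEmbedding (fun x : ℝ => ((x, r) : R3)) := by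
    refine Topology.IsClosedEmbedding.of_continuous_injective_isClosedMap (by fun_prop)
      (fun a b hab => by simpa using hab) ?_
    intro s hs
    have : (fun x : ℝ => ((x, r) : R3)) '' s = s ×ˢ {r} := by
      ext ⟨a, b⟩
      simp only [mem_image, Prod.mk.injEq, mem_prod, mem_singleton_iff]
      constructor
      · rintro ⟨x, hx, rfl, rfl⟩; exact ⟨hx, rfl⟩
      · rintro ⟨h1, rfl⟩; exact ⟨a, h1, rfl, rfl⟩
    rw [this]
    exact hs.prod isClosed_singleton
  exact ⟨h.co.comp he.continuous, h.cs.comp_isClosedEmbedding he⟩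

lemma CC.slice23 {f : R3 → ℝ} (h : CC f) (x : ℝ) : CC fun r : ℝ × ℝ => f (x, r) := by
  have he : IsClosedEmbedding (fun r : ℝ × ℝ => ((x, r) : R3)) := by
    refine Topology.IsClosedEmbedding.of_continuous_injective_isClosedMap (by fun_prop)
      (fun a b hab => by simpa using hab) ?_
    intro s hs
    have : (fun r : ℝ × ℝ => ((x, r) : R3)) '' s = {x} ×ˢ s := by
      ext ⟨a, b⟩
      simp only [mem_image, Prod.mk.injEq, mem_prod, mem_singleton_iff]
      constructor
      · rintro ⟨x, hx, rfl, rfl⟩; exact ⟨rfl, hx⟩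
      · rintro ⟨rfl, h1⟩; exact ⟨b, h1, rfl, rfl⟩
    rw [this]
    exact isClosed_singleton.prod hs
  exact ⟨h.co.comp he.continuous, h.cs.comp_isClosedEmbedding he⟩

lemma CC.fst {f : ℝ × ℝ → ℝ} (h : CC f) (y : ℝ) : CC fun x : ℝ => f (x, y) := by
  have he : IsClosedEmbedding (fun x : ℝ => ((x, y) : ℝ × ℝ)) := by
    refine Topology.IsClosedEmbedding.of_continuous_injective_isClosedMap (by fun_prop)
      (fun a b hab => by simpa using hab) ?_
    intro s hs
    have : (fun x : ℝ => ((x, y) : ℝ × ℝ)) '' s = s ×ˢ {y} := by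
      ext ⟨a, b⟩
      simp only [mem_image, Prod.mk.injEq, mem_prod, mem_singleton_iff]
      constructor
      · rintro ⟨x, hx, rfl, rfl⟩; exact ⟨hx, rfl⟩
      · rintro ⟨h1, rfl⟩; exact ⟨a, h1, rfl, rfl⟩
    rw [this]
    exact hs.prod isClosed_singleton
  exact ⟨h.co.comp he.continuous, h.cs.comp_isClosedEmbedding he⟩

lemma CC.snd {f : ℝ × ℝ → ℝ} (h : CC f) (x : ℝ) : CC fun y : ℝ => f (x, y) := by
  have he : IsClosedEmbedding (fun r : ℝ => ((x, r) : ℝ × ℝ)) := by
    refine Topology.IsClosedEmbedding.of_continuous_injective_isClosedMap (by fun_prop)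
      (fun a b hab => by simpa using hab) ?_
    intro s hs
    have : (fun r : ℝ => ((x, r) : ℝ × ℝ)) '' s = {x} ×ˢ s := by
      ext ⟨a, b⟩
      simp only [mem_image, Prod.mk.injEq, mem_prod, mem_singleton_iff]
      constructor
      · rintro ⟨x, hx, rfl, rfl⟩; exact ⟨rfl, hx⟩
      · rintro ⟨rfl, h1⟩; exact ⟨b, h1, rfl, rfl⟩
    rw [this]
    exact isClosed_singleton.prod hs
  exact ⟨h.co.comp he.continuous, h.cs.comp_isClosedEmbedding he⟩

/-- the upper half space in `ℝ³` -/
def UH : Set R3 := {q | 0 < q.2.1}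

lemma UH_eq : UH = (univ : Set ℝ) ×ˢ ((Ioi (0 : ℝ)) ×ˢ (univ : Set ℝ)) := by
  ext q
  simp [UH]

lemma UH_meas : MeasurableSet UH := by
  rw [UH_eq]
  exact MeasurableSet.univ.prod (measurableSet_Ioi.prod MeasurableSet.univ)

lemma restrict_UH : (volume : Measure R3).restrict UH =
    (volume : Measure ℝ).prod ((volume.restrict (Ioi (0 : ℝ))).prod (volume : Measure ℝ)) := by
  rw [UH_eq]
  have h1 : (volume : Measure R3) =
      (volume : Measure ℝ).prod ((volume : Measure ℝ).prod (volume : Measure ℝ)) := rfl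
  rw [h1, ← Measure.prod_restrict, ← Measure.prod_restrict, Measure.restrict_univ]

/-- integration over the first variable first -/
lemma int1 {f : R3 → ℝ} (h : CC f) : ∫ q in UH, f q =
    ∫ r : ℝ × ℝ, ∫ x : ℝ, f (x, r) ∂volume ∂((volume.restrict (Ioi (0 : ℝ))).prod volume) := by
  have hi : Integrable f ((volume : Measure R3).restrict UH) := h.integrable.integrableOn
  rw [restrict_UH] at hi ⊢
  exact integral_prod_symm _ hi

lemma int3 {f : R3 → ℝ} (h : CC f) : ∫ q in UH, f q =
    ∫ x : ℝ, ∫ t in Ioi (0 : ℝ), ∫ y : ℝ, f (x, t, y) := by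
  have hi : Integrable f ((volume : Measure R3).restrict UH) := h.integrable.integrableOn
  rw [restrict_UH] at hi ⊢
  rw [integral_prod _ hi]
  refine integral_congr_ae (Eventually.of_forall fun x => ?_)
  have hj : Integrable (fun r : ℝ × ℝ => f (x, r))
      ((volume.restrict (Ioi (0 : ℝ))).prod (volume : Measure ℝ)) := (h.slice23 x).integrable
  exact integral_prod _ hj

lemma int2 {f : R3 → ℝ} (h : CC f) : ∫ q in UH, f q =
    ∫ x : ℝ, ∫ y : ℝ, ∫ t in Ioi (0 : ℝ), f (x, t, y) := by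
  have hi : Integrable f ((volume : Measure R3).restrict UH) := h.integrable.integrableOn
  rw [restrict_UH] at hi ⊢
  rw [integral_prod _ hi]
  refine integral_congr_ae (Eventually.of_forall fun x => ?_)
  have hj : Integrable (fun r : ℝ × ℝ => f (x, r))
      ((volume.restrict (Ioi (0 : ℝ))).prod (volume : Measure ℝ)) := (h.slice23 x).integrable
  exact integral_prod_symm _ hj

section deriv

variable {U : R3 → ℝ}

lemma CC.of_c1 (hU : ContDiff ℝ 1 U) (hc : HasCompactSupport U) : CC U := ⟨hU.continuous, hc⟩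

lemma CC.fd (hU : ContDiff ℝ 1 U) (hc : HasCompactSupport U) (v : R3) :
    CC (fun q => fderiv ℝ U q v) :=
  ⟨(hU.continuous_fderiv (by norm_num)).clm_apply continuous_const, hc.fderiv_apply (𝕜 := ℝ) v⟩

lemma intx (hU : ContDiff ℝ 1 U) (hc : HasCompactSupport U) :
    ∫ q in UH, fderiv ℝ U q (1, 0, 0) = 0 := by
  rw [int1 (CC.fd hU hc _)]
  have : ∀ r : ℝ × ℝ, ∫ x : ℝ, fderiv ℝ U (x, r) (1, 0, 0) = 0 := by
    intro r
    refine integral_eq_zero_of_hasDerivAt_of_integrable (f := fun x : ℝ => U (x, r))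
      (fun x => ?_) ((CC.fd hU hc _).slice1 r).integrable ((CC.of_c1 hU hc).slice1 r).integrable
    have h1 : HasDerivAt (fun x : ℝ => ((x, r) : R3)) (1, 0) x :=
      (hasDerivAt_id x).prodMk (hasDerivAt_const x r)
    exact ((hU.differentiable (by norm_num)) _).hasFDerivAt.comp_hasDerivAt x h1
  simp [this]

lemma inty (hU : ContDiff ℝ 1 U) (hc : HasCompactSupport U) :
    ∫ q in UH, fderiv ℝ U q (0, 0, 1) = 0 := by
  rw [int3 (CC.fd hU hc _)]
  have : ∀ x t : ℝ, ∫ y : ℝ, fderiv ℝ U (x, t, y) (0, 0, 1) = 0 := by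
    intro x t
    refine integral_eq_zero_of_hasDerivAt_of_integrable (f := fun y : ℝ => U (x, t, y))
      (fun y => ?_) (((CC.fd hU hc _).slice23 x).snd t).integrable
      (((CC.of_c1 hU hc).slice23 x).snd t).integrable
    have h1 : HasDerivAt (fun y : ℝ => ((x, t, y) : R3)) (0, 0, 1) y :=
      (hasDerivAt_const y x).prodMk ((hasDerivAt_const y t).prodMk (hasDerivAt_id y))
    exact ((hU.differentiable (by norm_num)) _).hasFDerivAt.comp_hasDerivAt y h1
  simp [this]

lemma intt (hU : ContDiff ℝ 1 U) (hc : HasCompactSupport U) {m : ℝ → ℝ} (hm : Continuous m) :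
    ∫ q in UH, m q.1 * fderiv ℝ U q (0, 1, 0) = - ∫ x : ℝ, ∫ y : ℝ, m x * U (x, 0, y) := by
  have hcc0 : CC (fun q : R3 => m q.1 * fderiv ℝ U q (0, 1, 0)) :=
    (CC.fd hU hc _).mul (hm.comp continuous_fst)
  rw [int2 hcc0, ← integral_neg]
  refine integral_congr_ae (Eventually.of_forall fun x => ?_)
  simp only
  rw [← integral_neg]
  refine integral_congr_ae (Eventually.of_forall fun y => ?_)
  simp only
  rw [integral_const_mul]
  have hd : ∀ t : ℝ, HasDerivAt (fun t : ℝ => U (x, t, y)) (fderiv ℝ U (x, t, y) (0, 1, 0)) t := by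
    intro t
    have h1 : HasDerivAt (fun t : ℝ => ((x, t, y) : R3)) (0, 1, 0) t :=
      (hasDerivAt_const t x).prodMk ((hasDerivAt_id t).prodMk (hasDerivAt_const t y))
    exact ((hU.differentiable (by norm_num)) _).hasFDerivAt.comp_hasDerivAt t h1
  have hcc : CC fun t : ℝ => U (x, t, y) := ((CC.of_c1 hU hc).slice23 x).fst y
  have h2 := integral_Ioi_of_hasDerivAt_of_tendsto (f := fun t : ℝ => U (x, t, y))
    (f' := fun t : ℝ => fderiv ℝ U (x, t, y) (0, 1, 0)) (a := 0) (m := 0)
    hcc.co.continuousWithinAt (fun t _ => hd t)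
    (((CC.fd hU hc _).slice23 x).fst y).integrable.integrableOn
    (hcc.cs.is_zero_at_infty.mono_left (by rw [cocompact_eq_atBot_atTop]; exact le_sup_right))
  rw [h2]
  ring

end deriv

/-- shear -/
noncomputable def Sh (w : ℝ → ℝ) (q : R3) : R3 := (q.1, w q.1 + q.2.1, q.2.2)

lemma Sh_mp {w : ℝ → ℝ} (hw : Continuous w) : MeasurePreserving (Sh w) volume volume := by
  have h := (MeasurePreserving.id (volume : Measure ℝ)).skew_product
    (μc := (volume : Measure (ℝ × ℝ))) (μd := (volume : Measure (ℝ × ℝ)))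
    (g := fun (x : ℝ) (r : ℝ × ℝ) => ((w x + r.1, r.2) : ℝ × ℝ)) (by
      have : Continuous (Function.uncurry fun (x : ℝ) (r : ℝ × ℝ) =>
          ((w x + r.1, r.2) : ℝ × ℝ)) := by
        unfold Function.uncurry
        fun_prop
      exact this.measurable) (Eventually.of_forall fun x => by
        have := (measurePreserving_add_left (volume : Measure ℝ) (w x)).prod
          (MeasurePreserving.id (volume : Measure ℝ))
        exact this.map_eq)
  exact h

lemma Sh_me {w : ℝ → ℝ} (hw : Continuous w) : MeasurableEmbedding (Sh w) := by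
  let e : R3 ≃ᵐ R3 :=
    { toFun := Sh w
      invFun := Sh (fun x => - w x)
      left_inv := fun q => by simp [Sh]
      right_inv := fun q => by simp [Sh]
      measurable_toFun := by
        have : Continuous (Sh w) := by unfold Sh; fun_prop
        exact this.measurable
      measurable_invFun := by
        have : Continuous (Sh fun x => - w x) := by unfold Sh; fun_prop
        exact this.measurable }
  exact e.measurableEmbedding

/-- the parametrisation of the space by the shear -/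
noncomputable def PS (w : ℝ → ℝ) (q : R3) : V := pt q.1 (w q.1 + q.2.1) q.2.2

lemma PS_eq (w : ℝ → ℝ) : PS w = P3 ∘ Sh w := rfl

lemma dv_pt {ψ : V → V} (hψ : Differentiable ℝ ψ) (p : V) : dv ψ p =
    fderiv ℝ (fun q => ψ q 0) p (pt 1 0 0) + fderiv ℝ (fun q => ψ q 1) p (pt 0 1 0) +
      fderiv ℝ (fun q => ψ q 2) p (pt 0 0 1) := by
  rw [Pool.Agent.TH703.Cone.Div.dv_eq_sum' (EuclideanSpace.basisFun (Fin 3) ℝ) (hψ p)]
  rw [Fin.sum_univ_three]
  have hb0 : EuclideanSpace.basisFun (Fin 3) ℝ 0 = pt 1 0 0 := by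
    rw [EuclideanSpace.basisFun_apply]
    ext i
    fin_cases i <;> simp [pt]
  have hb1 : EuclideanSpace.basisFun (Fin 3) ℝ 1 = pt 0 1 0 := by
    rw [EuclideanSpace.basisFun_apply]
    ext i
    fin_cases i <;> simp [pt]
  have hb2 : EuclideanSpace.basisFun (Fin 3) ℝ 2 = pt 0 0 1 := by
    rw [EuclideanSpace.basisFun_apply]
    ext i
    fin_cases i <;> simp [pt]
  have hc : ∀ i : Fin 3, (fun y => ⟪EuclideanSpace.basisFun (Fin 3) ℝ i, ψ y⟫_ℝ) =
      fun q => ψ q i := by
    intro i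
    funext y
    rw [EuclideanSpace.basisFun_apply, EuclideanSpace.inner_single_left]
    simp
  rw [hc, hc, hc, hb0, hb1, hb2]

/-- **The divergence theorem** over the region above the graph of `w`. -/
theorem int_graph {ψ : V → V} (h1 : ContDiff ℝ 1 ψ) (h2 : HasCompactSupport ψ) {w : ℝ → ℝ}
    (hw : ContDiff ℝ 1 w) :
    ∫ p in {p : V | w (p 0) < p 1}, dv ψ p =
      ∫ x : ℝ, ∫ y : ℝ, (deriv w x * ψ (pt x (w x) y) 0 - ψ (pt x (w x) y) 1) := by
  have hwc : Continuous w := hw.continuous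
  have hmp : MeasurePreserving (PS w) volume volume := P3_mp.comp (Sh_mp hwc)
  have hme : MeasurableEmbedding (PS w) := P3_me.comp (Sh_me hwc)
  have hset : PS w ⁻¹' {p : V | w (p 0) < p 1} = UH := by
    ext q
    simp [PS, UH]
  rw [← hmp.setIntegral_preimage_emb hme, hset]
  -- the components
  have hPS : ContDiff ℝ 1 (PS w) := by
    rw [PS_eq]
    refine P3_contDiff.comp ?_
    unfold Sh
    fun_prop
  have hpsc : IsClosedEmbedding (PS w) := by
    have hinv : Continuous (fun p : V => ((p 0, p 1 - w (p 0), p 2) : R3)) := by fun_prop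
    have hl : Function.LeftInverse (fun p : V => ((p 0, p 1 - w (p 0), p 2) : R3)) (PS w) := by
      intro q
      simp [PS]
    have hr : Function.RightInverse (fun p : V => ((p 0, p 1 - w (p 0), p 2) : R3)) (PS w) := by
      intro p
      simp only [PS, add_sub_cancel]
      exact pt_eta p
    exact (Homeomorph.mk (Equiv.mk (PS w) _ hl hr) hPS.continuous hinv).isClosedEmbedding
  have hcomp : ∀ i : Fin 3, ContDiff ℝ 1 (fun p : V => ψ p i) := fun i =>
    contDiff_euclidean.1 h1 i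
  have hcs : ∀ i : Fin 3, HasCompactSupport (fun p : V => ψ p i) := fun i =>
    h2.comp_left (g := fun v : V => v i) rfl
  have hU : ∀ i : Fin 3, ContDiff ℝ 1 (fun q : R3 => ψ (PS w q) i) := fun i =>
    (hcomp i).comp hPS
  have hUc : ∀ i : Fin 3, HasCompactSupport (fun q : R3 => ψ (PS w q) i) := fun i =>
    (hcs i).comp_isClosedEmbedding hpsc
  -- the derivative of the parametrisation
  have hPSd : ∀ q : R3, ∀ v : R3, fderiv ℝ (PS w) q v = pt v.1 (deriv w q.1 * v.1 + v.2.1) v.2.2 := by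
    intro q v
    have hd1 : HasFDerivAt (fun q : R3 => w q.1)
        ((ContinuousLinearMap.smulRight (1 : ℝ →L[ℝ] ℝ) (deriv w q.1)).comp
          (ContinuousLinearMap.fst ℝ ℝ (ℝ × ℝ))) q := by
      have := ((hw.differentiable (by norm_num)) q.1).hasDerivAt.hasFDerivAt
      exact this.comp q hasFDerivAt_fst
    have hd : HasFDerivAt (Sh w)
        ((ContinuousLinearMap.fst ℝ ℝ (ℝ × ℝ)).prod
          ((((ContinuousLinearMap.smulRight (1 : ℝ →L[ℝ] ℝ) (deriv w q.1)).comp
          (ContinuousLinearMap.fst ℝ ℝ (ℝ × ℝ))) + ((ContinuousLinearMap.fst ℝ ℝ ℝ).comp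
            (ContinuousLinearMap.snd ℝ ℝ (ℝ × ℝ)))).prod
            ((ContinuousLinearMap.snd ℝ ℝ ℝ).comp (ContinuousLinearMap.snd ℝ ℝ (ℝ × ℝ))))) q := by
      refine hasFDerivAt_fst.prodMk ((hd1.add ?_).prodMk ?_)
      · exact (hasFDerivAt_fst.comp q hasFDerivAt_snd)
      · exact (hasFDerivAt_snd.comp q hasFDerivAt_snd)
    have hP : HasFDerivAt P3 P3L (Sh w q) := by
      rw [P3_eq']
      exact P3L.hasFDerivAt
    have := (hP.comp q hd).fderiv
    rw [PS_eq, this]
    simp only [ContinuousLinearMap.comp_apply, P3L_apply, P3, ContinuousLinearMap.prod_apply,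
      add_apply, ContinuousLinearMap.coe_fst', ContinuousLinearMap.coe_snd',
      ContinuousLinearMap.smulRight_apply, one_apply_eq_self, smul_eq_mul]
    rw [mul_comm]
  have hfd : ∀ (i : Fin 3) (q v : R3), fderiv ℝ (fun q : R3 => ψ (PS w q) i) q v =
      fderiv ℝ (fun p : V => ψ p i) (PS w q) (pt v.1 (deriv w q.1 * v.1 + v.2.1) v.2.2) := by
    intro i q v
    have e := fderiv_comp (𝕜 := ℝ) (g := fun p : V => ψ p i) (f := PS w) q
      ((hcomp i).differentiable (by norm_num) _) (hPS.differentiable (by norm_num) _)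
    have e2 : (fun q : R3 => ψ (PS w q) i) = (fun p : V => ψ p i) ∘ PS w := rfl
    rw [e2, e, ContinuousLinearMap.comp_apply, hPSd]
  have hsplit : ∀ q : R3, dv ψ (PS w q) =
      fderiv ℝ (fun q : R3 => ψ (PS w q) 0) q (1, 0, 0) +
      (-(deriv w q.1)) * fderiv ℝ (fun q : R3 => ψ (PS w q) 0) q (0, 1, 0) +
      1 * fderiv ℝ (fun q : R3 => ψ (PS w q) 1) q (0, 1, 0) +
      fderiv ℝ (fun q : R3 => ψ (PS w q) 2) q (0, 0, 1) := by
    intro q
    rw [dv_pt (h1.differentiable (by norm_num)), hfd, hfd, hfd, hfd]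
    simp only [mul_one, mul_zero, add_zero, zero_add]
    have e : pt 1 (deriv w q.1) 0 = pt 1 0 0 + deriv w q.1 • pt 0 1 0 := by
      ext i
      fin_cases i <;> simp [pt]
    rw [e, map_add, map_smul, smul_eq_mul]
    ring
  have hdw : Continuous (deriv w) := hw.continuous_deriv (by norm_num)
  have i1 : Integrable (fun q : R3 => fderiv ℝ (fun q : R3 => ψ (PS w q) 0) q (1, 0, 0))
      (volume.restrict UH) :=
    (CC.fd (hU 0) (hUc 0) (1, 0, 0)).integrable (μ := volume.restrict UH)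
  have i2 : Integrable (fun q : R3 => (-(deriv w q.1)) *
      fderiv ℝ (fun q : R3 => ψ (PS w q) 0) q (0, 1, 0)) (volume.restrict UH) :=
    ((CC.fd (hU 0) (hUc 0) (0, 1, 0)).mul
    ((hdw.comp continuous_fst).neg)).integrable (μ := volume.restrict UH)
  have i3 : Integrable (fun q : R3 => (1 : ℝ) *
      fderiv ℝ (fun q : R3 => ψ (PS w q) 1) q (0, 1, 0)) (volume.restrict UH) :=
    ((CC.fd (hU 1) (hUc 1) (0, 1, 0)).mul
    (continuous_const (y := (1 : ℝ)))).integrable (μ := volume.restrict UH)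
  have i4 : Integrable (fun q : R3 => fderiv ℝ (fun q : R3 => ψ (PS w q) 2) q (0, 0, 1))
      (volume.restrict UH) :=
    (CC.fd (hU 2) (hUc 2) (0, 0, 1)).integrable (μ := volume.restrict UH)
  have i12 : Integrable (fun q : R3 => fderiv ℝ (fun q : R3 => ψ (PS w q) 0) q (1, 0, 0) +
      (-(deriv w q.1)) * fderiv ℝ (fun q : R3 => ψ (PS w q) 0) q (0, 1, 0))
      (volume.restrict UH) := i1.add i2
  have i123 : Integrable (fun q : R3 => fderiv ℝ (fun q : R3 => ψ (PS w q) 0) q (1, 0, 0) +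
      (-(deriv w q.1)) * fderiv ℝ (fun q : R3 => ψ (PS w q) 0) q (0, 1, 0) +
      (1 : ℝ) * fderiv ℝ (fun q : R3 => ψ (PS w q) 1) q (0, 1, 0))
      (volume.restrict UH) := i12.add i3
  have e0 : ∫ q in UH, dv ψ (PS w q) =
      (∫ q in UH, fderiv ℝ (fun q : R3 => ψ (PS w q) 0) q (1, 0, 0)) +
      (∫ q in UH, (-(deriv w q.1)) * fderiv ℝ (fun q : R3 => ψ (PS w q) 0) q (0, 1, 0)) +
      (∫ q in UH, (1 : ℝ) * fderiv ℝ (fun q : R3 => ψ (PS w q) 1) q (0, 1, 0)) +
      (∫ q in UH, fderiv ℝ (fun q : R3 => ψ (PS w q) 2) q (0, 0, 1)) := by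
    simp_rw [hsplit]
    rw [integral_add i123 i4, integral_add i12 i3, integral_add i1 i2]
  rw [e0, intx (hU 0) (hUc 0), inty (hU 2) (hUc 2),
    intt (hU 0) (hUc 0) (m := fun x => -(deriv w x)) hdw.neg,
    intt (hU 1) (hUc 1) (m := fun _ => (1 : ℝ)) continuous_const]
  have j0 : ∀ x : ℝ, Integrable fun y : ℝ => deriv w x * ψ (PS w (x, 0, y)) 0 := fun x =>
    ((((CC.of_c1 (hU 0) (hUc 0)).slice23 x).snd 0).mul (continuous_const (y := deriv w x))).integrable
  have j1 : ∀ x : ℝ, Integrable fun y : ℝ => ψ (PS w (x, 0, y)) 1 := fun x =>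
    (((CC.of_c1 (hU 1) (hUc 1)).slice23 x).snd 0).integrable
  have k0 : Integrable fun x : ℝ => ∫ y : ℝ, deriv w x * ψ (PS w (x, 0, y)) 0 := by
    have he : IsClosedEmbedding (fun r : ℝ × ℝ => ((r.1, 0, r.2) : R3)) := by
      have hl : Function.LeftInverse (fun q : R3 => ((q.1, q.2.2) : ℝ × ℝ))
        (fun r : ℝ × ℝ => ((r.1, 0, r.2) : R3)) := fun r => rfl
      exact hl.isClosedEmbedding (by fun_prop) (by fun_prop)
    have hcc : CC fun r : ℝ × ℝ => deriv w r.1 * ψ (PS w (r.1, 0, r.2)) 0 :=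
      CC.mul (f := fun r : ℝ × ℝ => ψ (PS w (r.1, 0, r.2)) 0)
        ⟨(hU 0).continuous.comp he.continuous, (hUc 0).comp_isClosedEmbedding he⟩
        (hdw.comp continuous_fst)
    have hi : Integrable (fun r : ℝ × ℝ => deriv w r.1 * ψ (PS w (r.1, 0, r.2)) 0)
        ((volume : Measure ℝ).prod volume) := hcc.integrable
    exact hi.integral_prod_left
  have k1 : Integrable fun x : ℝ => ∫ y : ℝ, ψ (PS w (x, 0, y)) 1 := by
    have he : IsClosedEmbedding (fun r : ℝ × ℝ => ((r.1, 0, r.2) : R3)) := by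
      have hl : Function.LeftInverse (fun q : R3 => ((q.1, q.2.2) : ℝ × ℝ))
        (fun r : ℝ × ℝ => ((r.1, 0, r.2) : R3)) := fun r => rfl
      exact hl.isClosedEmbedding (by fun_prop) (by fun_prop)
    have hcc : CC fun r : ℝ × ℝ => ψ (PS w (r.1, 0, r.2)) 1 :=
      ⟨(hU 1).continuous.comp he.continuous, (hUc 1).comp_isClosedEmbedding he⟩
    have hi : Integrable (fun r : ℝ × ℝ => ψ (PS w (r.1, 0, r.2)) 1)
        ((volume : Measure ℝ).prod volume) := hcc.integrable
    exact hi.integral_prod_left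
  have e3 : ∀ x : ℝ, ∫ y : ℝ, (deriv w x * ψ (pt x (w x) y) 0 - ψ (pt x (w x) y) 1) =
      (∫ y : ℝ, deriv w x * ψ (PS w (x, 0, y)) 0) - ∫ y : ℝ, ψ (PS w (x, 0, y)) 1 := by
    intro x
    rw [← integral_sub (j0 x) (j1 x)]
    simp [PS]
  simp_rw [e3]
  rw [integral_sub k0 k1]
  simp only [neg_mul, one_mul, integral_neg, neg_neg, zero_add, add_zero]
  ring

end Pool.Agent.J4.H72.Cone
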