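import Pool.Agent.J4.H72.Cone.Vol
import Pool.Agent.J4.H72.Cone.Gr

/-!
# MP_65ff7c_an (S04892): the perimeter of the competitor
-/

set_option autoImplicit false

open MeasureTheory Set Metric Filter Topology
open scoped ENNReal

namespace Pool.Agent.J4.H72.Cone

open Pool.Agent.TH703.Cone (dv Tst PLE)

/-- the bound for the length of the curve -/
noncomputable def LL (γ ω κ : ℝ) : ℝ :=
  ∫ x in (-1 : ℝ)..1, √(1 + (2 * κ * x) ^ 2) * hp γ x (ω - κ * x ^ 2)

lemma norm_V (p : V) : ‖p‖ ^ 2 = p 0 ^ 2 + p 1 ^ 2 + p 2 ^ 2 := by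
  rw [EuclideanSpace.norm_sq_eq, Fin.sum_univ_three]
  simp

/-- the perimeter of the competitor -/
theorem per_Ep {γ ε ω κ : ℝ} (hε : 0 < ε) :
    PLE (Om γ ε) (Ep γ ε ω κ) (2 * ε * LL γ ω κ) := by
  intro φ hφ
  have hw : ContDiff ℝ 1 (fun x : ℝ => ω - κ * x ^ 2) := by fun_prop
  have h1 := int_graph hφ.c1 hφ.cs hw
  have h2 : ∫ p in Ep γ ε ω κ, dv φ p =
      ∫ p in {p : V | (fun x : ℝ => ω - κ * x ^ 2) (p 0) < p 1}, dv φ p := by
    have hmO : MeasurableSet (Om γ ε) := (Om_open γ ε).measurableSet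
    have hms : MeasurableSet {p : V | (fun x : ℝ => ω - κ * x ^ 2) (p 0) < p 1} :=
      (isOpen_lt (by fun_prop) (by fun_prop)).measurableSet
    unfold Ep
    rw [← integral_indicator (hmO.inter hms), ← integral_indicator hms]
    refine integral_congr_ae (Eventually.of_forall fun p => ?_)
    by_cases hp : p ∈ Om γ ε
    · by_cases hq : p ∈ {p : V | (fun x : ℝ => ω - κ * x ^ 2) (p 0) < p 1}
      · have hpq : p ∈ Om γ ε ∩ {p : V | ω - κ * p 0 ^ 2 < p 1} := ⟨hp, hq⟩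
        simp only
        rw [indicator_of_mem hq, indicator_of_mem hpq]
      · have hpq : p ∉ Om γ ε ∩ {p : V | ω - κ * p 0 ^ 2 < p 1} := fun h => hq h.2
        simp only
        rw [indicator_of_notMem hq, indicator_of_notMem hpq]
    · have h0 : dv φ p = 0 :=
        Pool.Agent.TH703.Cone.Div.dv_eq_zero_of_notMem fun h => hp (hφ.sub h)
      have e1 : ∀ S : Set V, S.indicator (dv φ) p = 0 := by
        intro S
        by_cases h : p ∈ S
        · rw [indicator_of_mem h, h0]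
        · rw [indicator_of_notMem h]
      simp only
      rw [e1, e1]
  rw [h2, h1]
  have hdw : ∀ x : ℝ, deriv (fun x : ℝ => ω - κ * x ^ 2) x = -(2 * κ * x) := by
    intro x
    have : HasDerivAt (fun x : ℝ => ω - κ * x ^ 2) (-(κ * (2 * x))) x := by
      have h3 := ((hasDerivAt_pow 2 x).const_mul κ).const_sub ω
      simpa using h3
    rw [this.deriv]
    ring
  -- the pointwise bound
  have hin : ∀ x y : ℝ, deriv (fun x : ℝ => ω - κ * x ^ 2) x * φ (pt x (ω - κ * x ^ 2) y) 0 -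
      φ (pt x (ω - κ * x ^ 2) y) 1 ≤
      (fib (Om γ ε) x (ω - κ * x ^ 2)).indicator (fun _ => √(1 + (2 * κ * x) ^ 2)) y := by
    intro x y
    by_cases hy : y ∈ fib (Om γ ε) x (ω - κ * x ^ 2)
    · rw [indicator_of_mem hy, hdw]
      apply Real.le_sqrt_of_sq_le
      set p := φ (pt x (ω - κ * x ^ 2) y) with hp
      have h3 : ‖p‖ ^ 2 ≤ 1 := by
        have := hφ.le (pt x (ω - κ * x ^ 2) y)
        have h0 := norm_nonneg p
        nlinarith
      rw [norm_V] at h3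
      have h4 : p 0 ^ 2 + p 1 ^ 2 ≤ 1 := by nlinarith [sq_nonneg (p 2)]
      have h5 : (-(2 * κ * x) * p 0 - p 1) ^ 2 ≤ (1 + (2 * κ * x) ^ 2) * (p 0 ^ 2 + p 1 ^ 2) := by
        nlinarith [sq_nonneg ((2 * κ * x) * p 1 - p 0)]
      have h6 : (0 : ℝ) ≤ 1 + (2 * κ * x) ^ 2 := by positivity
      nlinarith [mul_nonneg h6 (sub_nonneg.2 h4)]
    · rw [indicator_of_notMem hy]
      have h0 : φ (pt x (ω - κ * x ^ 2) y) = 0 := by
        by_contra hne
        exact hy (hφ.sub (subset_tsupport _ hne))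
      rw [h0]
      simp
  have hin2 : ∀ x : ℝ, ∫ y : ℝ, (deriv (fun x : ℝ => ω - κ * x ^ 2) x *
      φ (pt x (ω - κ * x ^ 2) y) 0 - φ (pt x (ω - κ * x ^ 2) y) 1) ≤
      2 * ε * (√(1 + (2 * κ * x) ^ 2) * hp γ x (ω - κ * x ^ 2)) := by
    intro x
    have hfm : MeasurableSet (fib (Om γ ε) x (ω - κ * x ^ 2)) :=
      fib_meas (Om_open γ ε).measurableSet _ _
    have e1 : ∫ y : ℝ, (fib (Om γ ε) x (ω - κ * x ^ 2)).indicator
        (fun _ => √(1 + (2 * κ * x) ^ 2)) y =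
        2 * ε * (√(1 + (2 * κ * x) ^ 2) * hp γ x (ω - κ * x ^ 2)) := by
      rw [integral_indicator hfm, setIntegral_const, smul_eq_mul, Measure.real, vol_fib_hp hε,
        ENNReal.toReal_ofReal (by have := hp_nonneg γ x (ω - κ * x ^ 2); positivity)]
      ring
    have e2 : Integrable (fun y : ℝ => (fib (Om γ ε) x (ω - κ * x ^ 2)).indicator
        (fun _ => √(1 + (2 * κ * x) ^ 2)) y) := by
      rw [integrable_indicator_iff hfm]
      refine integrableOn_const ?_ ?_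
      · rw [vol_fib_hp hε]; exact ENNReal.ofReal_ne_top
      · exact enorm_ne_top
    have e3 : 0 ≤ ∫ y : ℝ, (fib (Om γ ε) x (ω - κ * x ^ 2)).indicator
        (fun _ => √(1 + (2 * κ * x) ^ 2)) y :=
      integral_nonneg fun y => indicator_nonneg (fun _ _ => Real.sqrt_nonneg _) y
    rw [← e1]
    by_cases hi : Integrable fun y : ℝ => (deriv (fun x : ℝ => ω - κ * x ^ 2) x *
      φ (pt x (ω - κ * x ^ 2) y) 0 - φ (pt x (ω - κ * x ^ 2) y) 1)
    · exact integral_mono hi e2 (hin x)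
    · rw [integral_undef hi]
      exact e3
  have hG : Continuous fun x : ℝ => √(1 + (2 * κ * x) ^ 2) * hp γ x (ω - κ * x ^ 2) := by
    have c1 : Continuous fun x : ℝ => hp γ x (ω - κ * x ^ 2) :=
      (hp_cont γ).comp (by fun_prop : Continuous fun x : ℝ => ((x, ω - κ * x ^ 2) : ℝ × ℝ))
    fun_prop
  have hG0 : ∀ x : ℝ, 0 ≤ √(1 + (2 * κ * x) ^ 2) * hp γ x (ω - κ * x ^ 2) := fun x =>
    mul_nonneg (Real.sqrt_nonneg _) (hp_nonneg _ _ _)
  have hGs : HasCompactSupport fun x : ℝ =>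
      2 * ε * (√(1 + (2 * κ * x) ^ 2) * hp γ x (ω - κ * x ^ 2)) := by
    apply HasCompactSupport.intro (K := Icc (-1) 1) isCompact_Icc
    intro x hx
    have hx1 : 1 ≤ |x| := by
      by_contra hcon
      push Not at hcon
      exact hx (abs_le.1 hcon.le)
    rw [hp_zero_x hx1]
    simp
  have hGi : Integrable fun x : ℝ => 2 * ε * (√(1 + (2 * κ * x) ^ 2) * hp γ x (ω - κ * x ^ 2)) :=
    (continuous_const.mul hG).integrable_of_hasCompactSupport hGs
  have e4 : ∫ x : ℝ, 2 * ε * (√(1 + (2 * κ * x) ^ 2) * hp γ x (ω - κ * x ^ 2)) =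
      2 * ε * LL γ ω κ := by
    rw [integral_const_mul]
    congr 1
    unfold LL
    rw [intervalIntegral.integral_of_le (by norm_num), ← integral_indicator measurableSet_Ioc]
    refine integral_congr_ae (Eventually.of_forall fun x => ?_)
    by_cases hx : x ∈ Ioc (-1 : ℝ) 1
    · simp only [indicator_of_mem hx]
    · simp only [indicator_of_notMem hx]
      have hx1 : 1 ≤ |x| := by
        by_contra hcon
        push Not at hcon
        rw [abs_lt] at hcon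
        exact hx ⟨hcon.1, hcon.2.le⟩
      rw [hp_zero_x hx1]
      simp
  rw [← e4]
  by_cases hi : Integrable fun x : ℝ => ∫ y : ℝ, (deriv (fun x : ℝ => ω - κ * x ^ 2) x *
      φ (pt x (ω - κ * x ^ 2) y) 0 - φ (pt x (ω - κ * x ^ 2) y) 1)
  · exact integral_mono hi hGi hin2
  · rw [integral_undef hi]
    exact integral_nonneg fun x => mul_nonneg (by positivity) (hG0 x)

/-! ### the length of the curve -/

lemma sqrt_bd (a : ℝ) : √(1 + a ^ 2) ≤ 1 + a ^ 2 / 2 := by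
  apply Real.sqrt_le_iff.2
  constructor
  · positivity
  · nlinarith [sq_nonneg (a ^ 2)]

lemma gain {a b x : ℝ} (ha : 0 < a) (hab : a ≤ b) (hx : 0 ≤ x) :
    a ^ 2 / (2 * x + a) ≤ √(x ^ 2 + b ^ 2) - x := by
  have h1 : √(x ^ 2 + a ^ 2) ≤ √(x ^ 2 + b ^ 2) := by
    apply Real.sqrt_le_sqrt
    nlinarith
  have h2 : √(x ^ 2 + a ^ 2) ≤ x + a := by
    apply Real.sqrt_le_iff.2
    constructor
    · positivity
    · nlinarith
  have h3 : √(x ^ 2 + a ^ 2) ^ 2 = x ^ 2 + a ^ 2 := Real.sq_sqrt (by positivity)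
  have h4 : x ≤ √(x ^ 2 + a ^ 2) := by
    apply Real.le_sqrt_of_sq_le
    nlinarith [sq_nonneg a]
  have h5 : a ^ 2 / (2 * x + a) ≤ √(x ^ 2 + a ^ 2) - x := by
    rw [div_le_iff₀ (by positivity)]
    nlinarith [mul_nonneg (sub_nonneg.2 h4) (sub_nonneg.2 h2)]
  linarith

/-- the pointwise bound -/
lemma LL_pt {γ ω κ x : ℝ} (hγ : 0 < γ) (hω : 0 < ω) (hκ0 : 0 ≤ κ) (hκ : κ ≤ 7 * ω)
    (ha : γ * ω ≤ 1) (hx0 : 0 ≤ x) (hx : x ≤ 1 / 4) :
    √(1 + (2 * κ * x) ^ 2) * hp γ x (ω - κ * x ^ 2) ≤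
      (1 - x) * (1 + 2 * κ ^ 2 * x ^ 2) - (γ * ω / 2) ^ 2 / (2 * x + γ * ω / 2) := by
  have hw : ω / 2 ≤ ω - κ * x ^ 2 := by
    have : κ * x ^ 2 ≤ 7 * ω * (1 / 16) := by
      apply mul_le_mul hκ _ (sq_nonneg x) (by positivity)
      nlinarith
    linarith
  have hax : |x| = x := abs_of_nonneg hx0
  have h1 : hp γ x (ω - κ * x ^ 2) ≤ (1 - x) - (γ * ω / 2) ^ 2 / (2 * x + γ * ω / 2) := by
    unfold hp
    have hg := gain (a := γ * ω / 2) (b := γ * (ω - κ * x ^ 2)) (x := x) (by positivity)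
      (by nlinarith) hx0
    have e : √(x ^ 2 + (γ * (ω - κ * x ^ 2)) ^ 2) = nr γ x (ω - κ * x ^ 2) := by
      unfold nr
      congr 1
      ring
    rw [e] at hg
    apply max_le
    · have h2 : (γ * ω / 2) ^ 2 / (2 * x + γ * ω / 2) ≤ γ * ω / 2 := by
        rw [div_le_iff₀ (by positivity)]
        nlinarith [mul_pos hγ hω, mul_nonneg hx0 (mul_pos hγ hω).le]
      linarith
    · linarith
  have h2 : √(1 + (2 * κ * x) ^ 2) ≤ 1 + 2 * κ ^ 2 * x ^ 2 := by
    refine (sqrt_bd _).trans (le_of_eq ?_)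
    ring
  have h3 : hp γ x (ω - κ * x ^ 2) ≤ 1 - x := by
    have := hp_le (γ := γ) (x := x) (z := ω - κ * x ^ 2) (by rw [hax]; linarith)
    rwa [hax] at this
  have h0 := hp_nonneg γ x (ω - κ * x ^ 2)
  calc √(1 + (2 * κ * x) ^ 2) * hp γ x (ω - κ * x ^ 2)
      ≤ (1 + 2 * κ ^ 2 * x ^ 2) * hp γ x (ω - κ * x ^ 2) := mul_le_mul_of_nonneg_right h2 h0
    _ = hp γ x (ω - κ * x ^ 2) + 2 * κ ^ 2 * x ^ 2 * hp γ x (ω - κ * x ^ 2) := by ring
    _ ≤ ((1 - x) - (γ * ω / 2) ^ 2 / (2 * x + γ * ω / 2)) + 2 * κ ^ 2 * x ^ 2 * (1 - x) := by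
        have : 2 * κ ^ 2 * x ^ 2 * hp γ x (ω - κ * x ^ 2) ≤ 2 * κ ^ 2 * x ^ 2 * (1 - x) :=
          mul_le_mul_of_nonneg_left h3 (by positivity)
        linarith
    _ = _ := by ring

lemma LL_pt2 {γ ω κ x : ℝ} (hx0 : 0 ≤ x) (hx : x ≤ 1) :
    √(1 + (2 * κ * x) ^ 2) * hp γ x (ω - κ * x ^ 2) ≤
      (1 - x) * (1 + 2 * κ ^ 2 * x ^ 2) := by
  have hax : |x| = x := abs_of_nonneg hx0
  have h2 : √(1 + (2 * κ * x) ^ 2) ≤ 1 + 2 * κ ^ 2 * x ^ 2 := by
    refine (sqrt_bd _).trans (le_of_eq ?_)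
    ring
  have h3 : hp γ x (ω - κ * x ^ 2) ≤ 1 - x := by
    have := hp_le (γ := γ) (x := x) (z := ω - κ * x ^ 2) (by rw [hax]; linarith)
    rwa [hax] at this
  have h0 := hp_nonneg γ x (ω - κ * x ^ 2)
  calc √(1 + (2 * κ * x) ^ 2) * hp γ x (ω - κ * x ^ 2)
      ≤ (1 + 2 * κ ^ 2 * x ^ 2) * (1 - x) := mul_le_mul h2 h3 h0 (by positivity)
    _ = _ := by ring

lemma int_log {a : ℝ} (ha : 0 < a) :
    ∫ x in (0 : ℝ)..(1 / 4), a ^ 2 / (2 * x + a) = a ^ 2 / 2 * Real.log (1 + 1 / (2 * a)) := by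
  have hd : ∀ x ∈ uIcc (0 : ℝ) (1 / 4), HasDerivAt (fun x : ℝ => a ^ 2 / 2 * Real.log (2 * x + a))
      (a ^ 2 / (2 * x + a)) x := by
    intro x hx
    rw [uIcc_of_le (by norm_num)] at hx
    have hpos : 0 < 2 * x + a := by linarith [hx.1]
    have h1 : HasDerivAt (fun x : ℝ => 2 * x + a) 2 x := by
      simpa using ((hasDerivAt_id x).const_mul 2).add_const a
    have h2 := (h1.log hpos.ne').const_mul (a ^ 2 / 2)
    have e : a ^ 2 / 2 * (2 / (2 * x + a)) = a ^ 2 / (2 * x + a) := by ring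
    rw [e] at h2
    exact h2
  have hc : ContinuousOn (fun x : ℝ => a ^ 2 / (2 * x + a)) (uIcc (0 : ℝ) (1 / 4)) := by
    apply ContinuousOn.div (by fun_prop) (by fun_prop)
    intro x hx
    rw [uIcc_of_le (by norm_num)] at hx
    have hpos : 0 < 2 * x + a := by linarith [hx.1]
    exact hpos.ne'
  rw [intervalIntegral.integral_eq_sub_of_hasDerivAt hd hc.intervalIntegrable]
  rw [← mul_sub, ← Real.log_div (by positivity) (by positivity)]
  congr 2
  field_simp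
  ring

theorem LL_le {γ ω κ : ℝ} (hγ : 0 < γ) (hω : 0 < ω) (hκ0 : 0 ≤ κ) (hκ : κ ≤ 7 * ω)
    (ha : γ * ω ≤ 1) :
    LL γ ω κ ≤ 1 + κ ^ 2 / 3 - (γ * ω / 2) ^ 2 * Real.log (1 + 1 / (2 * (γ * ω / 2))) := by
  have hG : Continuous fun x : ℝ => √(1 + (2 * κ * x) ^ 2) * hp γ x (ω - κ * x ^ 2) := by
    have c1 : Continuous fun x : ℝ => hp γ x (ω - κ * x ^ 2) :=
      (hp_cont γ).comp (by fun_prop : Continuous fun x : ℝ => ((x, ω - κ * x ^ 2) : ℝ × ℝ))
    fun_prop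
  unfold LL
  rw [int_even hG (by
    intro x
    have : hp γ (-x) (ω - κ * (-x) ^ 2) = hp γ x (ω - κ * x ^ 2) := by
      unfold hp nr
      congr 4 <;> ring
    rw [this]
    congr 2
    ring)]
  have hi : ∀ a b : ℝ, IntervalIntegrable
      (fun x : ℝ => √(1 + (2 * κ * x) ^ 2) * hp γ x (ω - κ * x ^ 2)) volume a b := fun a b =>
    hG.intervalIntegrable _ _
  rw [← intervalIntegral.integral_add_adjacent_intervals (hi 0 (1 / 4)) (hi (1 / 4) 1)]
  have hq : Continuous fun x : ℝ => (1 - x) * (1 + 2 * κ ^ 2 * x ^ 2) := by fun_prop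
  have ha0 : 0 < γ * ω / 2 := by positivity
  have hli : IntervalIntegrable (fun x : ℝ => (γ * ω / 2) ^ 2 / (2 * x + γ * ω / 2)) volume 0
      (1 / 4) := by
    apply ContinuousOn.intervalIntegrable
    apply ContinuousOn.div (by fun_prop) (by fun_prop)
    intro x hx
    rw [uIcc_of_le (by norm_num)] at hx
    have hpos : 0 < 2 * x + γ * ω / 2 := by linarith [hx.1]
    exact hpos.ne'
  have h1 : ∫ x in (0 : ℝ)..(1 / 4), √(1 + (2 * κ * x) ^ 2) * hp γ x (ω - κ * x ^ 2) ≤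
      (∫ x in (0 : ℝ)..(1 / 4), (1 - x) * (1 + 2 * κ ^ 2 * x ^ 2)) -
        (γ * ω / 2) ^ 2 / 2 * Real.log (1 + 1 / (2 * (γ * ω / 2))) := by
    rw [← int_log ha0, ← intervalIntegral.integral_sub (hq.intervalIntegrable _ _) hli]
    apply intervalIntegral.integral_mono_on (by norm_num) (hi _ _)
      ((hq.intervalIntegrable _ _).sub hli)
    intro x hx
    exact LL_pt hγ hω hκ0 hκ ha hx.1 hx.2
  have h2 : ∫ x in (1 / 4 : ℝ)..1, √(1 + (2 * κ * x) ^ 2) * hp γ x (ω - κ * x ^ 2) ≤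
      (∫ x in (1 / 4 : ℝ)..1, (1 - x) * (1 + 2 * κ ^ 2 * x ^ 2)) := by
    apply intervalIntegral.integral_mono_on (by norm_num) (hi _ _) (hq.intervalIntegrable _ _)
    intro x hx
    exact LL_pt2 (by linarith [hx.1]) hx.2
  have h3 : (∫ x in (0 : ℝ)..(1 / 4), (1 - x) * (1 + 2 * κ ^ 2 * x ^ 2)) +
      (∫ x in (1 / 4 : ℝ)..1, (1 - x) * (1 + 2 * κ ^ 2 * x ^ 2)) = 1 / 2 + κ ^ 2 / 6 := by
    rw [intervalIntegral.integral_add_adjacent_intervals (hq.intervalIntegrable _ _)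
      (hq.intervalIntegrable _ _)]
    have e : ∫ x in (0 : ℝ)..1, (1 - x) * (1 + 2 * κ ^ 2 * x ^ 2) =
        ∫ x in (0 : ℝ)..1, (1 + (-1) * x + 2 * κ ^ 2 * x ^ 2 + (-(2 * κ ^ 2)) * x ^ 3) := by
      apply intervalIntegral.integral_congr
      intro x _
      simp only
      ring
    rw [e, intervalIntegral.integral_add (by apply Continuous.intervalIntegrable; fun_prop)
        (by apply Continuous.intervalIntegrable; fun_prop),
      intervalIntegral.integral_add (by apply Continuous.intervalIntegrable; fun_prop)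
        (by apply Continuous.intervalIntegrable; fun_prop),
      intervalIntegral.integral_add (by apply Continuous.intervalIntegrable; fun_prop)
        (by apply Continuous.intervalIntegrable; fun_prop),
      intervalIntegral.integral_const_mul, intervalIntegral.integral_const_mul,
      intervalIntegral.integral_const_mul, integral_pow, integral_pow, integral_id]
    simp only [intervalIntegral.integral_const, smul_eq_mul]
    norm_num
    ring
  linarith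

/-- the length is less than one -/
theorem LL_lt {γ : ℝ} (hγ : 0 < γ) (hγ1 : γ ≤ 1) : ∃ ω : ℝ, 0 < ω ∧ ω ≤ 1 ∧
    ∀ κ : ℝ, 0 ≤ κ → κ ≤ 7 * ω → LL γ ω κ ≤ 1 - 2 / 3 * ω ^ 2 := by
  have hpos : (0 : ℝ) < 68 / γ ^ 2 := by positivity
  refine ⟨Real.exp (-(68 / γ ^ 2)), Real.exp_pos _, ?_, ?_⟩
  · rw [Real.exp_le_one_iff]; linarith
  intro κ hκ0 hκ
  set ω := Real.exp (-(68 / γ ^ 2)) with hω
  have hω0 : 0 < ω := Real.exp_pos _
  have hω1 : ω ≤ 1 := by rw [hω, Real.exp_le_one_iff]; linarith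
  have h1 := LL_le hγ hω0 hκ0 hκ (by nlinarith)
  have h2 : 68 / γ ^ 2 ≤ Real.log (1 + 1 / (2 * (γ * ω / 2))) := by
    rw [Real.le_log_iff_exp_le (by positivity)]
    have h3 : Real.exp (68 / γ ^ 2) = 1 / ω := by
      rw [hω, Real.exp_neg]
      simp
    rw [h3]
    have h4 : 1 / ω ≤ 1 / (γ * ω) := by
      apply one_div_le_one_div_of_le (by positivity)
      nlinarith
    have h5 : 2 * (γ * ω / 2) = γ * ω := by ring
    rw [h5]
    linarith
  have h3 : (γ * ω / 2) ^ 2 * (68 / γ ^ 2) ≤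
      (γ * ω / 2) ^ 2 * Real.log (1 + 1 / (2 * (γ * ω / 2))) :=
    mul_le_mul_of_nonneg_left h2 (sq_nonneg _)
  have h4 : (γ * ω / 2) ^ 2 * (68 / γ ^ 2) = 17 * ω ^ 2 := by
    field_simp
    ring
  have h5 : κ ^ 2 ≤ 49 * ω ^ 2 := by nlinarith
  linarith

end Pool.Agent.J4.H72.Cone
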