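import Mathlib

/-!
# MP_65ff7c_an (S04892): cut-off functions
-/

set_option autoImplicit false

open MeasureTheory Set Metric Filter Topology
open scoped ENNReal Manifold ContDiff

namespace Pool.Agent.J4.H72.Cone

/-- the triangle -/
def Tri : Set (ℝ × ℝ) := {q | 0 < q.1 ∧ q.1 + |q.2| < 1}

lemma Tri_open : IsOpen Tri := by
  have h1 : IsOpen {q : ℝ × ℝ | 0 < q.1} := isOpen_lt continuous_const continuous_fst
  have h2 : IsOpen {q : ℝ × ℝ | q.1 + |q.2| < 1} := isOpen_lt (by fun_prop) continuous_const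
  exact h1.inter h2

lemma Tri_eq : Tri = regionBetween (fun r => -(1 - r)) (fun r => 1 - r) (Ioo 0 1) := by
  ext q
  simp only [Tri, regionBetween, mem_ofPred_eq, mem_Ioo]
  constructor
  · rintro ⟨h1, h2⟩
    have h3 := abs_nonneg q.2
    have h4 : |q.2| < 1 - q.1 := by linarith
    rw [abs_lt] at h4
    exact ⟨⟨h1, by linarith⟩, h4.1, h4.2⟩
  · rintro ⟨⟨h1, h2⟩, h3, h4⟩
    refine ⟨h1, ?_⟩
    have : |q.2| < 1 - q.1 := abs_lt.2 ⟨h3, h4⟩
    linarith

lemma vol_Tri : volume Tri = 1 := by
  rw [Tri_eq, Measure.volume_eq_prod]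
  rw [volume_regionBetween_eq_integral]
  · have : ∫ y in Ioo (0 : ℝ) 1, ((fun r : ℝ => (1 : ℝ) - r) -
        (fun r : ℝ => -((1 : ℝ) - r)) : ℝ → ℝ) y = 1 := by
      rw [← integral_Ioc_eq_integral_Ioo, ← intervalIntegral.integral_of_le (by norm_num)]
      have : ∀ y : ℝ, ((fun r : ℝ => (1 : ℝ) - r) -
          (fun r : ℝ => -((1 : ℝ) - r)) : ℝ → ℝ) y = 2 + (-2) * y := by
        intro y
        simp only [Pi.sub_apply]
        ring
      simp_rw [this]
      rw [intervalIntegral.integral_add (by apply Continuous.intervalIntegrable; fun_prop)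
        (by apply Continuous.intervalIntegrable; fun_prop), intervalIntegral.integral_const_mul,
        integral_id]
      simp
      norm_num
    rw [this]
    simp
  · exact (by fun_prop : Continuous fun r : ℝ => -(1 - r)).continuousOn.integrableOn_Icc.mono_set
      Ioo_subset_Icc_self
  · exact (by fun_prop : Continuous fun r : ℝ => (1 - r)).continuousOn.integrableOn_Icc.mono_set
      Ioo_subset_Icc_self
  · exact measurableSet_Ioo
  · intro x hx
    linarith [hx.2]

/-- a smooth function in the triangle with almost full integral -/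
theorem exists_cut {δ : ℝ} (hδ : 0 < δ) : ∃ c : ℝ × ℝ → ℝ, ContDiff ℝ 1 c ∧
    HasCompactSupport c ∧ tsupport c ⊆ Tri ∧ (∀ q, 0 ≤ c q ∧ c q ≤ 1) ∧ 1 - δ ≤ ∫ q, c q := by
  have h1 : ENNReal.ofReal (1 - δ) < volume Tri := by
    rw [vol_Tri, ← ENNReal.ofReal_one]
    exact (ENNReal.ofReal_lt_ofReal_iff (by norm_num)).2 (by linarith)
  obtain ⟨K, hKT, hK, hKv⟩ := Tri_open.exists_lt_isCompact h1
  obtain ⟨L, hL, hKL, hLT⟩ := exists_compact_between hK Tri_open hKT
  obtain ⟨f, hf0, hf1, hf⟩ := exists_contMDiffMap_zero_one_of_isClosed (n := 1)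
    𝓘(ℝ, ℝ × ℝ) (s := (interior L)ᶜ) (t := K) isOpen_interior.isClosed_compl hK.isClosed
    (Set.disjoint_left.2 fun x hx hxK => hx (hKL hxK))
  have hcd : ContDiff ℝ 1 f := f.contMDiff.contDiff
  have hts : tsupport f ⊆ L := by
    apply closure_minimal _ hL.isClosed
    intro x hx
    by_contra hcon
    exact hx (hf0 fun h => hcon (interior_subset h))
  have hcs : HasCompactSupport f := hL.of_isClosed_subset (isClosed_tsupport _) hts
  refine ⟨f, hcd, hcs, hts.trans hLT, fun q => hf q, ?_⟩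
  have hfin : volume K ≠ ⊤ := hK.measure_lt_top.ne
  have h2 : 1 - δ ≤ volume.real K := by
    have := (ENNReal.toReal_le_toReal ENNReal.ofReal_ne_top hfin).2 hKv.le
    rw [ENNReal.toReal_ofReal'] at this
    exact (le_max_left _ _).trans this
  have h3 : volume.real K = ∫ q, K.indicator (fun _ => (1 : ℝ)) q := by
    rw [integral_indicator hK.measurableSet, setIntegral_const]
    simp
  rw [h3] at h2
  refine h2.trans ?_
  apply integral_mono
  · rw [integrable_indicator_iff hK.measurableSet]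
    exact integrableOn_const hfin enorm_ne_top
  · exact hcd.continuous.integrable_of_hasCompactSupport hcs
  · intro q
    by_cases hq : q ∈ K
    · rw [indicator_of_mem hq, hf1 hq]
      rfl
    · rw [indicator_of_notMem hq]
      exact (hf q).1

/-- a smooth odd step -/
theorem exists_step {σ : ℝ} (hσ : 0 < σ) : ∃ (f : ℝ → ℝ) (M : ℝ), ContDiff ℝ 1 f ∧
    (∀ s, σ ≤ s → f s = 1) ∧ (∀ s, s ≤ -σ → f s = -1) ∧ (∀ s, |f s| ≤ 1) ∧ 0 ≤ M ∧
    (∀ s, |deriv f s| ≤ M) ∧ (∀ s, σ < |s| → deriv f s = 0) := by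
  set f : ℝ → ℝ := fun s => 2 * Real.smoothTransition ((s / σ + 1) / 2) - 1 with hf
  have hcd : ContDiff ℝ 1 f := by
    have h1 : ContDiff ℝ 1 Real.smoothTransition := Real.smoothTransition.contDiff (n := 1)
    have h2 : ContDiff ℝ 1 fun s : ℝ => (s / σ + 1) / 2 := by fun_prop
    exact (contDiff_const.mul (h1.comp h2)).sub contDiff_const
  have hf1 : ∀ s, σ ≤ s → f s = 1 := by
    intro s hs
    have : 1 ≤ s / σ := by rwa [one_le_div hσ]
    simp only [hf]
    rw [Real.smoothTransition.one_of_one_le (by linarith)]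
    norm_num
  have hf2 : ∀ s, s ≤ -σ → f s = -1 := by
    intro s hs
    have : s / σ ≤ -1 := by rwa [div_le_iff₀ hσ, neg_one_mul]
    simp only [hf]
    rw [Real.smoothTransition.zero_of_nonpos (by linarith)]
    norm_num
  have hd0 : ∀ s, σ < |s| → deriv f s = 0 := by
    intro s hs
    rcases lt_abs.1 hs with h | h
    · have : f =ᶠ[𝓝 s] fun _ => 1 := by
        filter_upwards [lt_mem_nhds h] with u hu
        exact hf1 u hu.le
      rw [this.deriv_eq]
      simp
    · have : f =ᶠ[𝓝 s] fun _ => -1 := by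
        filter_upwards [gt_mem_nhds (show s < -σ by linarith)] with u hu
        exact hf2 u hu.le
      rw [this.deriv_eq]
      simp
  have hdc : Continuous (deriv f) := hcd.continuous_deriv (by norm_num)
  obtain ⟨M, hM⟩ := isCompact_Icc.exists_bound_of_continuousOn (s := Icc (-σ) σ) hdc.continuousOn
  refine ⟨f, max M 0, hcd, hf1, hf2, ?_, le_max_right _ _, ?_, hd0⟩
  · intro s
    have h1 := Real.smoothTransition.nonneg ((s / σ + 1) / 2)
    have h2 := Real.smoothTransition.le_one ((s / σ + 1) / 2)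
    rw [abs_le]
    simp only [hf]
    constructor <;> linarith
  · intro s
    by_cases hs : |s| ≤ σ
    · exact (hM s (abs_le.1 hs)).trans (le_max_left _ _)
    · rw [hd0 s (not_le.1 hs)]
      simp

end Pool.Agent.J4.H72.Cone
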