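import Pool.Agent.J4.H72.Cone.Body
import Pool.Agent.TH703.Cone.Trans

/-!
# MP_65ff7c_an (S04892): the fibres of a set of small perimeter are almost full or almost empty
-/

set_option autoImplicit false

open MeasureTheory Set Metric Filter Topology
open scoped ENNReal

namespace Pool.Agent.J4.H72.Cone

open Pool.Agent.TH703.Cone (dv Tst PLE t1)

lemma pt_add (x z y x' z' y' : ℝ) : pt x z y + pt x' z' y' = pt (x + x') (z + z') (y + y') := by
  ext i
  fin_cases i <;> simp [pt]

lemma norm_pt_y (t : ℝ) : ‖pt 0 0 t‖ = |t| := by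
  rw [EuclideanSpace.norm_eq, Fin.sum_univ_three]
  simp [pt, Real.sqrt_sq_eq_abs]

lemma meas_fib {A : Set V} (hA : MeasurableSet A) :
    Measurable fun q : ℝ × ℝ => volume (fib A q.1 q.2) := by
  have h1 : MeasurableSet {r : (ℝ × ℝ) × ℝ | pt r.1.1 r.1.2 r.2 ∈ A} := by
    have : Measurable fun r : (ℝ × ℝ) × ℝ => pt r.1.1 r.1.2 r.2 :=
      P3_continuous.measurable.comp
        (by fun_prop : Measurable fun r : (ℝ × ℝ) × ℝ => ((r.1.1, r.1.2, r.2) : ℝ × ℝ × ℝ))
    exact this hA
  exact measurable_measure_prodMk_left h1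

lemma meas_fib' {A : Set V} (hA : MeasurableSet A) :
    Measurable fun p : V => volume (fib A (p 0) (p 1)) := by
  have e : Measurable fun p : V => ((p 0, p 1) : ℝ × ℝ) := by fun_prop
  have h := (meas_fib hA).comp e
  simpa only [Function.comp_def] using h

/-- **The fibres.** -/
theorem fib_prod {γ ε P : ℝ} {E : Set V} (hγ : 0 < γ) (hε : 0 < ε) (hE : MeasurableSet E)
    (hEO : E ⊆ Om γ ε) (hP : 0 ≤ P) (hPE : PLE (Om γ ε) E P) :
    ∫⁻ x : ℝ, ∫⁻ z : ℝ, volume (fib E x z) * volume (fib (Om γ ε \ E) x z) ≤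
      ENNReal.ofReal (8 * ε ^ 2 * P) := by
  set G : Set V := Om γ ε \ E with hG
  have hGm : MeasurableSet G := (Om_open γ ε).measurableSet.diff hE
  -- the translation estimate
  have ht : ∀ t : ℝ, volume {p : V | p ∈ E ∧ p + pt 0 0 t ∈ G} ≤ ENNReal.ofReal (|t| * P) := by
    intro t
    have := t1 V (Om γ ε) E P (pt 0 0 t) (Om_open γ ε) (Om_convex hε) (Om_bdd hγ hε) hE hEO hP hPE
    rwa [norm_pt_y] at this
  have h1 : ∫⁻ t in Icc (-(2 * ε)) (2 * ε), volume {p : V | p ∈ E ∧ p + pt 0 0 t ∈ G} ≤
      ENNReal.ofReal (8 * ε ^ 2 * P) := by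
    calc ∫⁻ t in Icc (-(2 * ε)) (2 * ε), volume {p : V | p ∈ E ∧ p + pt 0 0 t ∈ G}
        ≤ ∫⁻ _ in Icc (-(2 * ε)) (2 * ε), ENNReal.ofReal (2 * ε * P) := by
          apply setLIntegral_mono measurable_const
          intro t htt
          refine (ht t).trans (ENNReal.ofReal_le_ofReal ?_)
          exact mul_le_mul_of_nonneg_right (abs_le.2 htt) hP
      _ = ENNReal.ofReal (8 * ε ^ 2 * P) := by
          rw [setLIntegral_const, Real.volume_Icc, ← ENNReal.ofReal_mul (by positivity)]
          congr 1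
          ring
  refine le_trans (le_of_eq ?_) h1
  -- Fubini
  set SS : Set (ℝ × V) := {q : ℝ × V | q.2 ∈ E ∧ q.2 + pt 0 0 q.1 ∈ G} with hSS
  have hm1 : MeasurableSet SS := by
    have e1 : Measurable fun q : ℝ × V => q.2 + pt 0 0 q.1 := by
      have : Measurable fun q : ℝ × V => pt 0 0 q.1 :=
        P3_continuous.measurable.comp
          (by fun_prop : Measurable fun q : ℝ × V => ((0, 0, q.1) : ℝ × ℝ × ℝ))
      exact measurable_snd.add this
    exact (measurable_snd hE).inter (e1 hGm)
  have h2 : ∀ t : ℝ, volume {p : V | p ∈ E ∧ p + pt 0 0 t ∈ G} =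
      ∫⁻ p : V, SS.indicator (fun _ => (1 : ℝ≥0∞)) (t, p) := by
    intro t
    have hms : MeasurableSet {p : V | p ∈ E ∧ p + pt 0 0 t ∈ G} := measurable_prodMk_left hm1
    rw [← lintegral_indicator_one hms]
    rfl
  simp_rw [h2]
  have hsm : Measurable (SS.indicator (fun _ : ℝ × V => (1 : ℝ≥0∞))) :=
    measurable_const.indicator hm1
  have hsw : ∫⁻ t in Icc (-(2 * ε)) (2 * ε), ∫⁻ p : V, SS.indicator (fun _ => (1 : ℝ≥0∞)) (t, p) =
      ∫⁻ p : V, ∫⁻ t in Icc (-(2 * ε)) (2 * ε), SS.indicator (fun _ => (1 : ℝ≥0∞)) (t, p) :=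
    lintegral_lintegral_swap (f := fun t p => SS.indicator (fun _ => (1 : ℝ≥0∞)) (t, p))
      hsm.aemeasurable
  rw [hsw]
  have h3 : ∀ p : V, ∫⁻ t in Icc (-(2 * ε)) (2 * ε),
      SS.indicator (fun _ => (1 : ℝ≥0∞)) (t, p) =
      E.indicator (fun p => volume (fib G (p 0) (p 1))) p := by
    intro p
    by_cases hp : p ∈ E
    · rw [indicator_of_mem hp]
      have hms : MeasurableSet {t : ℝ | p + pt 0 0 t ∈ G} := by
        have : Measurable fun t : ℝ => p + pt 0 0 t := by
          have : Measurable fun t : ℝ => pt 0 0 t :=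
            P3_continuous.measurable.comp
              (by fun_prop : Measurable fun t : ℝ => ((0, 0, t) : ℝ × ℝ × ℝ))
          exact measurable_const.add this
        exact this hGm
      have e1 : ∫⁻ t in Icc (-(2 * ε)) (2 * ε),
          SS.indicator (fun _ => (1 : ℝ≥0∞)) (t, p) =
          ∫⁻ t in Icc (-(2 * ε)) (2 * ε), {t : ℝ | p + pt 0 0 t ∈ G}.indicator 1 t := by
        refine lintegral_congr fun t => ?_
        by_cases ht' : p + pt 0 0 t ∈ G
        · have a1 : (t, p) ∈ SS := ⟨hp, ht'⟩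
          have a2 : t ∈ {t : ℝ | p + pt 0 0 t ∈ G} := ht'
          rw [indicator_of_mem a1, indicator_of_mem a2]
          rfl
        · have a1 : (t, p) ∉ SS := fun h => ht' h.2
          have a2 : t ∉ {t : ℝ | p + pt 0 0 t ∈ G} := ht'
          rw [indicator_of_notMem a1, indicator_of_notMem a2]
      rw [e1, lintegral_indicator_one hms, Measure.restrict_apply hms]
      have e2 : {t : ℝ | p + pt 0 0 t ∈ G} ∩ Icc (-(2 * ε)) (2 * ε) =
          (fun t => p 2 + t) ⁻¹' (fib G (p 0) (p 1)) := by
        have e3 : ∀ t : ℝ, p + pt 0 0 t = pt (p 0) (p 1) (p 2 + t) := by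
          intro t
          conv_lhs => rw [← pt_eta p]
          rw [pt_add, add_zero, add_zero]
        ext t
        constructor
        · rintro ⟨h4, -⟩
          have h5 : p + pt 0 0 t ∈ G := h4
          rw [e3] at h5
          exact h5
        · intro h4
          have h5 : pt (p 0) (p 1) (p 2 + t) ∈ G := h4
          refine ⟨?_, ?_⟩
          · change p + pt 0 0 t ∈ G
            rw [e3]
            exact h5
          · have a1 := (Om_coord hγ hε h5.1).2.2
            have a2 := (Om_coord hγ hε (hEO hp)).2.2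
            rw [pt_two] at a1
            rw [abs_lt] at a1 a2
            constructor <;> linarith
      rw [e2, measure_preimage_add]
    · rw [indicator_of_notMem hp]
      have : ∀ t : ℝ, SS.indicator (fun _ => (1 : ℝ≥0∞)) (t, p) = 0 := by
        intro t
        apply indicator_of_notMem
        intro h
        exact hp h.1
      simp only [this, lintegral_zero]
  rw [lintegral_congr h3]
  have hmf : Measurable fun p : V => volume (fib G (p 0) (p 1)) := meas_fib' hGm
  rw [lintegral_P3 (hmf.indicator hE)]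
  refine lintegral_congr fun x => lintegral_congr fun z => ?_
  have e4 : ∀ y : ℝ, E.indicator (fun p => volume (fib G (p 0) (p 1))) (pt x z y) =
      (fib E x z).indicator (fun _ => volume (fib G x z)) y := by
    intro y
    by_cases hy : y ∈ fib E x z
    · have hy' : pt x z y ∈ E := hy
      rw [indicator_of_mem hy, indicator_of_mem hy']
      rfl
    · have hy' : pt x z y ∉ E := hy
      rw [indicator_of_notMem hy, indicator_of_notMem hy']
  simp_rw [e4]
  rw [lintegral_indicator (fib_meas hE x z), setLIntegral_const, mul_comm]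

/-- almost full fibres -/
theorem fib_small {E G A : Set V} {W : Set (ℝ × ℝ)} {C m : ℝ} (hE : MeasurableSet E)
    (hG : MeasurableSet G) (hA : MeasurableSet A) (hW : MeasurableSet W) (hm : 0 < m)
    (hC : ∫⁻ x : ℝ, ∫⁻ z : ℝ, volume (fib E x z) * volume (fib G x z) ≤ ENNReal.ofReal C)
    (hAE : volume (A \ E) = 0)
    (hmA : ∀ x z : ℝ, (x, z) ∈ W → ENNReal.ofReal m ≤ volume (fib A x z)) :
    volume (G ∩ {p | (p 0, p 1) ∈ W}) ≤ ENNReal.ofReal (C / m) := by
  have hcm : MeasurableSet {p : V | (p 0, p 1) ∈ W} := by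
    have e : Measurable fun p : V => ((p 0, p 1) : ℝ × ℝ) := by fun_prop
    exact e hW
  -- almost every fibre of `A` is in `E`
  have hae : ∀ᵐ x : ℝ, ∀ᵐ z : ℝ, volume (fib (A \ E) x z) = 0 := by
    have h1 := hAE
    rw [volume_P3 (hA.diff hE)] at h1
    have hm1 : Measurable fun x : ℝ => ∫⁻ z : ℝ, volume {y : ℝ | pt x z y ∈ A \ E} :=
      (meas_fib (hA.diff hE)).lintegral_prod_right'
    have h2 := (lintegral_eq_zero_iff hm1).1 h1
    filter_upwards [h2] with x hx
    have hm2 : Measurable fun z : ℝ => volume {y : ℝ | pt x z y ∈ A \ E} :=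
      (meas_fib (hA.diff hE)).comp measurable_prodMk_left
    have h3 := (lintegral_eq_zero_iff hm2).1 hx
    filter_upwards [h3] with z hz
    exact hz
  have key : ENNReal.ofReal m * volume (G ∩ {p | (p 0, p 1) ∈ W}) ≤ ENNReal.ofReal C := by
    rw [volume_P3 (hG.inter hcm)]
    refine le_trans ?_ hC
    have hm1 : Measurable fun x : ℝ => ∫⁻ z : ℝ,
        volume {y : ℝ | pt x z y ∈ G ∩ {p : V | (p 0, p 1) ∈ W}} :=
      (meas_fib (hG.inter hcm)).lintegral_prod_right'
    rw [← lintegral_const_mul _ hm1]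
    apply lintegral_mono_ae
    filter_upwards [hae] with x hx
    have hm2 : Measurable fun z : ℝ =>
        volume {y : ℝ | pt x z y ∈ G ∩ {p : V | (p 0, p 1) ∈ W}} :=
      (meas_fib (hG.inter hcm)).comp measurable_prodMk_left
    rw [← lintegral_const_mul _ hm2]
    apply lintegral_mono_ae
    filter_upwards [hx] with z hz
    by_cases hW' : (x, z) ∈ W
    · have h4 : volume (fib A x z) ≤ volume (fib E x z) := by
        have : fib A x z ⊆ fib E x z ∪ fib (A \ E) x z := by
          intro y hy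
          by_cases hyE : y ∈ fib E x z
          · exact Or.inl hyE
          · exact Or.inr ⟨hy, hyE⟩
        calc volume (fib A x z) ≤ volume (fib E x z ∪ fib (A \ E) x z) := measure_mono this
          _ ≤ volume (fib E x z) + volume (fib (A \ E) x z) := measure_union_le _ _
          _ = volume (fib E x z) := by rw [hz, add_zero]
      have h5 : volume {y : ℝ | pt x z y ∈ G ∩ {p : V | (p 0, p 1) ∈ W}} ≤ volume (fib G x z) :=
        measure_mono fun y hy => hy.1
      exact mul_le_mul' ((hmA x z hW').trans h4) h5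
    · have : {y : ℝ | pt x z y ∈ G ∩ {p : V | (p 0, p 1) ∈ W}} = ∅ := by
        ext y
        simp [hW']
      rw [this]
      simp
  rw [ENNReal.ofReal_div_of_pos hm, ENNReal.le_div_iff_mul_le, mul_comm]
  · exact key
  · left
    simpa using hm
  · left
    exact ENNReal.ofReal_ne_top

end Pool.Agent.J4.H72.Cone
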