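import Pool.Agent.J4.H72.Cone.Body
import Pool.Agent.J4.H72.Cone.Gr
import Pool.Agent.J4.H72.Cone.Cut

/-!
# MP_65ff7c_an (S04892): the rotational test field
-/

set_option autoImplicit false

open MeasureTheory Set Metric Filter Topology
open scoped ENNReal

namespace Pool.Agent.J4.H72.Cone

open Pool.Agent.TH703.Cone (dv Tst PLE)

/-- distance to the `y`-axis -/
noncomputable def rho (p : V) : ℝ := √(p 0 ^ 2 + p 1 ^ 2)

lemma rho_nonneg (p : V) : 0 ≤ rho p := Real.sqrt_nonneg _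

lemma rho_sq (p : V) : rho p ^ 2 = p 0 ^ 2 + p 1 ^ 2 := Real.sq_sqrt (by positivity)

lemma rho_cont : Continuous rho := by unfold rho; fun_prop

/-- the rotational field -/
noncomputable def Jr (p : V) : V := pt (p 1) (-(p 0)) 0

lemma Jr_contDiff : ContDiff ℝ 1 Jr := by
  rw [contDiff_euclidean]
  intro i
  fin_cases i
  · change ContDiff ℝ 1 fun p : V => p 1
    fun_prop
  · change ContDiff ℝ 1 fun p : V => -(p 0)
    fun_prop
  · change ContDiff ℝ 1 fun _ : V => (0 : ℝ)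
    fun_prop

lemma norm_Jr (p : V) : ‖Jr p‖ = rho p := by
  have h1 : ‖Jr p‖ ^ 2 = rho p ^ 2 := by
    rw [norm_V', rho_sq]
    simp [Jr]
    ring
  exact (pow_left_inj₀ (norm_nonneg _) (rho_nonneg _) (by norm_num)).1 h1
where
  norm_V' (p : V) : ‖p‖ ^ 2 = p 0 ^ 2 + p 1 ^ 2 + p 2 ^ 2 := by
    rw [EuclideanSpace.norm_sq_eq, Fin.sum_univ_three]
    simp

lemma dv_Jr (p : V) : dv Jr p = 0 := by
  rw [dv_pt (Jr_contDiff.differentiable (by norm_num))]
  have e0 : (fun q : V => Jr q 0) = fun q : V => q 1 := rfl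
  have e1 : (fun q : V => Jr q 1) = fun q : V => -(q 0) := rfl
  have e2 : (fun q : V => Jr q 2) = fun _ : V => (0 : ℝ) := rfl
  rw [e0, e1, e2]
  have h1 : HasFDerivAt (fun q : V => q 1) (EuclideanSpace.proj 1 : V →L[ℝ] ℝ) p :=
    (EuclideanSpace.proj 1 : V →L[ℝ] ℝ).hasFDerivAt
  have h0 : HasFDerivAt (fun q : V => -(q 0)) (-(EuclideanSpace.proj 0 : V →L[ℝ] ℝ)) p :=
    (EuclideanSpace.proj 0 : V →L[ℝ] ℝ).hasFDerivAt.neg
  rw [h1.fderiv, h0.fderiv]
  simp

/-- the coefficient of the field -/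
noncomputable def Af (c : ℝ × ℝ → ℝ) (f : ℝ → ℝ) (t ε : ℝ) (p : V) : ℝ :=
  c (rho p, p 2 / ε) * (f ((p 0 - t * p 1) / rho p) / rho p)

/-- the field -/
noncomputable def Ff (c : ℝ × ℝ → ℝ) (f : ℝ → ℝ) (t ε : ℝ) (p : V) : V := Af c f t ε p • Jr p

section field

variable {c : ℝ × ℝ → ℝ} {f : ℝ → ℝ} {t ε τ : ℝ}

lemma Af_contDiff (hc : ContDiff ℝ 1 c) (hf : ContDiff ℝ 1 f) (hτ : 0 < τ)
    (hcτ : ∀ r y, r < τ → c (r, y) = 0) : ContDiff ℝ 1 (Af c f t ε) := by
  rw [contDiff_iff_contDiffAt]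
  intro p
  by_cases h : rho p < τ
  · have h1 : ∀ᶠ q in 𝓝 p, rho q < τ := rho_cont.continuousAt.eventually_lt_const h
    have h2 : Af c f t ε =ᶠ[𝓝 p] fun _ => 0 := by
      filter_upwards [h1] with q hq
      unfold Af
      rw [hcτ _ _ hq, zero_mul]
    exact contDiffAt_const.congr_of_eventuallyEq h2
  · have hpos : 0 < rho p := lt_of_lt_of_le hτ (not_lt.1 h)
    have hne : p 0 ^ 2 + p 1 ^ 2 ≠ 0 := by
      rw [← rho_sq]
      positivity
    have hr : ContDiffAt ℝ 1 rho p := by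
      exact ContDiffAt.sqrt (f := fun q : V => q 0 ^ 2 + q 1 ^ 2) (by fun_prop) hne
    have h1 : ContDiffAt ℝ 1 (fun q : V => c (rho q, q 2 / ε)) p := by
      apply hc.contDiffAt.comp
      apply hr.prodMk
      fun_prop
    have h2 : ContDiffAt ℝ 1 (fun q : V => (q 0 - t * q 1) / rho q) p := by
      apply ContDiffAt.div _ hr hpos.ne'
      fun_prop
    have h3 : ContDiffAt ℝ 1 (fun q : V => f ((q 0 - t * q 1) / rho q)) p :=
      hf.contDiffAt.comp p h2
    exact h1.mul (h3.div hr hpos.ne')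

lemma Ff_contDiff (hc : ContDiff ℝ 1 c) (hf : ContDiff ℝ 1 f) (hτ : 0 < τ)
    (hcτ : ∀ r y, r < τ → c (r, y) = 0) : ContDiff ℝ 1 (Ff c f t ε) :=
  (Af_contDiff hc hf hτ hcτ).smul Jr_contDiff

/-- the divergence of the field -/
lemma dv_Ff (hc : ContDiff ℝ 1 c) (hf : ContDiff ℝ 1 f) (hτ : 0 < τ)
    (hcτ : ∀ r y, r < τ → c (r, y) = 0) (p : V) : dv (Ff c f t ε) p =
      c (rho p, p 2 / ε) * (deriv f ((p 0 - t * p 1) / rho p) * ((p 1 + t * p 0) / rho p) /
        rho p) := by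
  have hA := Af_contDiff (t := t) (ε := ε) hc hf hτ hcτ
  have h1 : dv (Ff c f t ε) p = fderiv ℝ (Af c f t ε) p (Jr p) := by
    have := Pool.Agent.TH703.Cone.Div.dv_smul (g := Af c f t ε) (φ := Jr) (x := p)
      (hA.differentiable (by norm_num) p) (Jr_contDiff.differentiable (by norm_num) p)
    rw [dv_Jr, mul_zero, zero_add] at this
    exact this
  rw [h1]
  -- the rotation
  set R : ℝ → V := fun s => pt (p 0 * Real.cos s + p 1 * Real.sin s)
    (p 1 * Real.cos s - p 0 * Real.sin s) (p 2) with hR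
  have hR0 : R 0 = p := by
    simp only [hR, Real.cos_zero, Real.sin_zero, mul_one, mul_zero, add_zero, sub_zero]
    exact pt_eta p
  have hRd : HasDerivAt R (Jr p) 0 := by
    have a1 : HasDerivAt (fun s : ℝ => p 0 * Real.cos s + p 1 * Real.sin s) (p 1) 0 := by
      refine HasDerivAt.congr_deriv (((Real.hasDerivAt_cos 0).const_mul (p 0)).add
        ((Real.hasDerivAt_sin 0).const_mul (p 1))) ?_
      simp
    have a2 : HasDerivAt (fun s : ℝ => p 1 * Real.cos s - p 0 * Real.sin s) (-(p 0)) 0 := by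
      refine HasDerivAt.congr_deriv (((Real.hasDerivAt_cos 0).const_mul (p 1)).sub
        ((Real.hasDerivAt_sin 0).const_mul (p 0))) ?_
      simp
    have a3 := a1.prodMk (a2.prodMk (hasDerivAt_const (0 : ℝ) (p 2)))
    have a4 := P3L.hasFDerivAt.comp_hasDerivAt (0 : ℝ) a3
    have e5 : P3L (p 1, -(p 0), 0) = Jr p := P3L_apply _
    rw [e5] at a4
    have e6 : R = ⇑P3L ∘ fun s : ℝ => ((p 0 * Real.cos s + p 1 * Real.sin s,
        p 1 * Real.cos s - p 0 * Real.sin s, p 2) : ℝ × ℝ × ℝ) := by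
      funext s
      simp only [hR, Function.comp_apply, P3L_apply]
      rfl
    rw [e6]
    exact a4
  have hrho : ∀ s, rho (R s) = rho p := by
    intro s
    unfold rho
    congr 1
    simp only [hR, pt_zero, pt_one]
    nlinarith [Real.sin_sq_add_cos_sq s]
  have hcomp : HasDerivAt (fun s => Af c f t ε (R s)) (fderiv ℝ (Af c f t ε) p (Jr p)) 0 := by
    have h2 := (hA.differentiable (by norm_num) (R 0)).hasFDerivAt.comp_hasDerivAt 0 hRd
    rw [hR0] at h2
    exact h2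
  have hex : (fun s => Af c f t ε (R s)) = fun s => c (rho p, p 2 / ε) *
      (f (((p 0 - t * p 1) * Real.cos s + (p 1 + t * p 0) * Real.sin s) / rho p) / rho p) := by
    funext s
    unfold Af
    rw [hrho]
    simp only [hR, pt_zero, pt_one, pt_two]
    congr 3
    ring
  rw [hex] at hcomp
  have hd : HasDerivAt (fun s : ℝ => c (rho p, p 2 / ε) *
      (f (((p 0 - t * p 1) * Real.cos s + (p 1 + t * p 0) * Real.sin s) / rho p) / rho p))
      (c (rho p, p 2 / ε) * (deriv f ((p 0 - t * p 1) / rho p) * ((p 1 + t * p 0) / rho p) /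
        rho p)) 0 := by
    have e1 : HasDerivAt (fun s : ℝ => ((p 0 - t * p 1) * Real.cos s +
        (p 1 + t * p 0) * Real.sin s) / rho p) ((p 1 + t * p 0) / rho p) 0 := by
      have := (((Real.hasDerivAt_cos 0).const_mul (p 0 - t * p 1)).add
        ((Real.hasDerivAt_sin 0).const_mul (p 1 + t * p 0))).div_const (rho p)
      simpa using this
    have e2 := (hf.differentiable (by norm_num) (((p 0 - t * p 1) * Real.cos 0 +
        (p 1 + t * p 0) * Real.sin 0) / rho p)).hasDerivAt.comp 0 e1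
    simp only [Real.cos_zero, Real.sin_zero, mul_one, mul_zero, add_zero] at e2
    exact (e2.div_const (rho p)).const_mul _
  exact hcomp.unique hd

/-- the support of the field -/
lemma Ff_supp : tsupport (Ff c f t ε) ⊆ {p | (rho p, p 2 / ε) ∈ tsupport c} := by
  apply closure_minimal
  · intro p hp
    apply subset_tsupport
    intro h
    apply hp
    unfold Ff Af
    rw [h]
    simp
  · exact (isClosed_tsupport c).preimage (rho_cont.prodMk (by fun_prop))

lemma supp_Om {γ : ℝ} (hγ : 0 < γ) (hγ1 : γ ≤ 1) (hε : 0 < ε) (hcT : tsupport c ⊆ Tri) :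
    {p : V | (rho p, p 2 / ε) ∈ tsupport c} ⊆ Om γ ε := by
  intro p hp
  obtain ⟨-, h2⟩ := hcT hp
  rw [mem_Om, gau]
  have h3 := nr_le_one hγ.le hγ1 (p 0) (p 1)
  have h4 : |p 2 / ε| = |p 2| / ε := by rw [abs_div, abs_of_pos hε]
  rw [h4] at h2
  have h5 : √(p 0 ^ 2 + p 1 ^ 2) = rho p := rfl
  rw [h5] at h3
  linarith

/-- the field is admissible -/
theorem Ff_Tst {γ : ℝ} (hγ : 0 < γ) (hγ1 : γ ≤ 1) (hε : 0 < ε)
    (hc : ContDiff ℝ 1 c) (hcT : tsupport c ⊆ Tri) (hc01 : ∀ q, 0 ≤ c q ∧ c q ≤ 1)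
    (hf : ContDiff ℝ 1 f) (hf1 : ∀ s, |f s| ≤ 1) (hτ : 0 < τ)
    (hcτ : ∀ r y, r < τ → c (r, y) = 0) : Tst (Om γ ε) (Ff c f t ε) := by
  have hs := (Ff_supp (c := c) (f := f) (t := t) (ε := ε)).trans (supp_Om hγ hγ1 hε hcT)
  refine ⟨Ff_contDiff hc hf hτ hcτ, ?_, hs, ?_⟩
  · have hcl : IsClosed {p : V | (rho p, p 2 / ε) ∈ tsupport c} :=
      (isClosed_tsupport c).preimage (rho_cont.prodMk (by fun_prop))
    have hcomp : IsCompact {p : V | (rho p, p 2 / ε) ∈ tsupport c} :=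
      Metric.isCompact_of_isClosed_isBounded hcl ((Om_bdd hγ hε).subset (supp_Om hγ hγ1 hε hcT))
    exact hcomp.of_isClosed_subset (isClosed_tsupport _) Ff_supp
  · intro p
    unfold Ff
    rw [norm_smul, norm_Jr, Real.norm_eq_abs]
    rcases eq_or_lt_of_le (rho_nonneg p) with h | h
    · rw [← h]; simp
    · unfold Af
      rw [abs_mul, abs_div, abs_of_pos h, mul_assoc, div_mul_cancel₀ _ h.ne']
      have h1 : |c (rho p, p 2 / ε)| ≤ 1 := by
        rw [abs_of_nonneg (hc01 _).1]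
        exact (hc01 _).2
      have h2 := hf1 ((p 0 - t * p 1) / rho p)
      calc |c (rho p, p 2 / ε)| * |f ((p 0 - t * p 1) / rho p)| ≤ 1 * 1 :=
            mul_le_mul h1 h2 (abs_nonneg _) (by norm_num)
        _ = 1 := by norm_num

/-- the bound for the divergence -/
lemma dv_Ff_le {M : ℝ} (hc : ContDiff ℝ 1 c) (hc01 : ∀ q, 0 ≤ c q ∧ c q ≤ 1)
    (hf : ContDiff ℝ 1 f) (hτ : 0 < τ) (hcτ : ∀ r y, r < τ → c (r, y) = 0) (ht : |t| ≤ 1 / 2)
    (hM0 : 0 ≤ M) (hM : ∀ s, |deriv f s| ≤ M) (p : V) :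
    |dv (Ff c f t ε) p| ≤ 2 * M / τ := by
  rw [dv_Ff hc hf hτ hcτ]
  by_cases h : rho p < τ
  · rw [hcτ _ _ h]
    simp only [zero_mul, abs_zero]
    positivity
  · have hr : τ ≤ rho p := not_lt.1 h
    have hpos : 0 < rho p := lt_of_lt_of_le hτ hr
    rw [abs_mul, abs_div, abs_mul, abs_div, abs_of_pos hpos]
    have h1 : |c (rho p, p 2 / ε)| ≤ 1 := by
      rw [abs_of_nonneg (hc01 _).1]
      exact (hc01 _).2
    have h2 : |p 1 + t * p 0| ≤ 2 * rho p := by
      have e1 : |p 1| ≤ rho p := by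
        apply Real.le_sqrt_of_sq_le
        rw [sq_abs]
        nlinarith [sq_nonneg (p 0)]
      have e0 : |p 0| ≤ rho p := by
        apply Real.le_sqrt_of_sq_le
        rw [sq_abs]
        nlinarith [sq_nonneg (p 1)]
      have e2 : |t * p 0| ≤ 1 / 2 * rho p := by
        rw [abs_mul]
        exact mul_le_mul ht e0 (abs_nonneg _) (by norm_num)
      have := abs_add_le (p 1) (t * p 0)
      linarith
    have h3 : |p 1 + t * p 0| / rho p ≤ 2 := by
      rw [div_le_iff₀ hpos]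
      exact h2
    have h4 : |deriv f ((p 0 - t * p 1) / rho p)| * (|p 1 + t * p 0| / rho p) ≤ M * 2 :=
      mul_le_mul (hM _) h3 (by positivity) hM0
    have h5 : |deriv f ((p 0 - t * p 1) / rho p)| * (|p 1 + t * p 0| / rho p) / rho p ≤
        2 * M / τ := by
      rw [div_le_div_iff₀ hpos hτ]
      have h6 : 0 ≤ |deriv f ((p 0 - t * p 1) / rho p)| * (|p 1 + t * p 0| / rho p) := by positivity
      nlinarith
    calc _ ≤ 1 * (2 * M / τ) := mul_le_mul h1 h5 (by positivity) (by norm_num)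
      _ = _ := by ring

/-- where the divergence does not vanish -/
lemma dv_Ff_supp {γ σ : ℝ} (hγ : 0 < γ) (hγ1 : γ ≤ 1) (hε : 0 < ε) (hc : ContDiff ℝ 1 c)
    (hcT : tsupport c ⊆ Tri)
    (hf : ContDiff ℝ 1 f) (hτ : 0 < τ) (hcτ : ∀ r y, r < τ → c (r, y) = 0) (ht : |t| ≤ 1 / 2)
    (hσ : 0 < σ) (hσ1 : σ ≤ 1 / 4) (hfσ : ∀ s, σ < |s| → deriv f s = 0) {p : V}
    (hp : dv (Ff c f t ε) p ≠ 0) :
    p ∈ Om γ ε ∧ |p 0 - t * p 1| ≤ 2 * σ * |p 1| ∧ |p 1| < 1 ∧ τ / 2 ≤ |p 1| := by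
  rw [dv_Ff hc hf hτ hcτ] at hp
  have h1 : c (rho p, p 2 / ε) ≠ 0 := fun h => hp (by rw [h, zero_mul])
  have h2 : deriv f ((p 0 - t * p 1) / rho p) ≠ 0 := fun h => hp (by rw [h]; simp)
  have hr : τ ≤ rho p := by
    by_contra hcon
    exact h1 (hcτ _ _ (not_le.1 hcon))
  have hpos : 0 < rho p := lt_of_lt_of_le hτ hr
  have hmem : (rho p, p 2 / ε) ∈ tsupport c := subset_tsupport c h1
  have hq : |p 0 - t * p 1| ≤ σ * rho p := by
    by_contra hcon
    apply h2
    apply hfσ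
    rw [abs_div, abs_of_pos hpos, lt_div_iff₀ hpos]
    exact not_le.1 hcon
  have hrho1 : rho p < 1 := by
    have := (hcT hmem).2
    have h0 := abs_nonneg (p 2 / ε)
    simp only at this h0
    linarith
  have e0 : rho p ≤ |p 0| + |p 1| := by
    apply Real.sqrt_le_iff.2
    constructor
    · positivity
    · nlinarith [sq_abs (p 0), sq_abs (p 1), mul_nonneg (abs_nonneg (p 0)) (abs_nonneg (p 1))]
  have e1 : |p 0| ≤ |p 0 - t * p 1| + 1 / 2 * |p 1| := by
    have h3 : p 0 = (p 0 - t * p 1) + t * p 1 := by ring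
    have h4 := abs_add_le (p 0 - t * p 1) (t * p 1)
    rw [← h3, abs_mul] at h4
    have h5 : |t| * |p 1| ≤ 1 / 2 * |p 1| := mul_le_mul_of_nonneg_right ht (abs_nonneg _)
    linarith
  have e2 : |p 0 - t * p 1| ≤ 2 * σ * |p 1| := by
    have h6 : |p 0 - t * p 1| ≤ σ * (|p 0 - t * p 1| + 3 / 2 * |p 1|) := by
      refine hq.trans (mul_le_mul_of_nonneg_left ?_ hσ.le)
      linarith
    have h7 := abs_nonneg (p 0 - t * p 1)
    have h8 := abs_nonneg (p 1)
    have h9 : |p 0 - t * p 1| * (1 - σ) ≤ 3 / 2 * σ * |p 1| := by nlinarith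
    have h10 : 3 / 4 * |p 0 - t * p 1| ≤ |p 0 - t * p 1| * (1 - σ) := by nlinarith
    linarith
  have h8 := abs_nonneg (p 1)
  have h11 : 2 * σ * |p 1| ≤ 1 / 2 * |p 1| := by nlinarith
  refine ⟨supp_Om hγ hγ1 hε hcT hmem, e2, ?_, ?_⟩
  · have : |p 1| ≤ rho p := by
      apply Real.le_sqrt_of_sq_le
      rw [sq_abs]
      nlinarith [sq_nonneg (p 0)]
    linarith
  · linarith

/-- the integral of the divergence over the upper half space -/
theorem int_Ff {σ : ℝ} (hε : 0 < ε) (hc : ContDiff ℝ 1 c) (hccs : HasCompactSupport c)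
    (hf : ContDiff ℝ 1 f) (hτ : 0 < τ) (hcτ : ∀ r y, r < τ → c (r, y) = 0)
    (hFc : HasCompactSupport (Ff c f t ε)) (hσ1 : σ ≤ 1) (hfp : ∀ s, σ ≤ s → f s = 1)
    (hfm : ∀ s, s ≤ -σ → f s = -1) :
    ∫ p in {p : V | 0 < p 1}, dv (Ff c f t ε) p = 2 * ε * ∫ q, c q := by
  have h1 := int_graph (ψ := Ff c f t ε) (Ff_contDiff hc hf hτ hcτ) hFc (w := fun _ => (0 : ℝ))
    contDiff_const
  simp only [deriv_const, zero_mul, zero_sub] at h1
  rw [h1]
  have h2 : ∀ x y : ℝ, -(Ff c f t ε (pt x 0 y) 1) = c (|x|, y / ε) := by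
    intro x y
    have hr : rho (pt x 0 y) = |x| := by
      unfold rho
      simp [Real.sqrt_sq_eq_abs]
    have e1 : Ff c f t ε (pt x 0 y) 1 = Af c f t ε (pt x 0 y) * (-x) := by
      unfold Ff
      rw [PiLp.smul_apply, smul_eq_mul]
      rfl
    rw [e1]
    unfold Af
    rw [hr]
    simp only [pt_zero, pt_one, pt_two, mul_zero, sub_zero]
    rcases lt_trichotomy x 0 with h | h | h
    · have hx := h.ne
      rw [abs_of_neg h]
      have : x / -x = -1 := by
        rw [div_neg, div_self hx]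
      rw [this, hfm (-1) (by linarith)]
      field_simp
    · rw [h, abs_zero, hcτ 0 (y / ε) hτ]
      simp
    · rw [abs_of_pos h]
      have : x / x = 1 := div_self h.ne'
      rw [this, hfp 1 (by linarith)]
      field_simp
  simp_rw [h2]
  have h3 : ∀ x : ℝ, ∫ y : ℝ, c (|x|, y / ε) = ε * ∫ y : ℝ, c (|x|, y) := by
    intro x
    have := Measure.integral_comp_div (fun y : ℝ => c (|x|, y)) ε
    rw [this, abs_of_pos hε, smul_eq_mul]
  simp_rw [h3]
  rw [integral_const_mul]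
  have h4 := integral_comp_abs (f := fun x : ℝ => ∫ y : ℝ, c (x, y))
  rw [h4]
  have hci : Integrable c ((volume : Measure ℝ).prod volume) :=
    hc.continuous.integrable_of_hasCompactSupport hccs
  have h5 : ∫ q, c q = ∫ x : ℝ, ∫ y : ℝ, c (x, y) := by
    rw [Measure.volume_eq_prod]
    exact integral_prod _ hci
  have h6 : ∫ x : ℝ, ∫ y : ℝ, c (x, y) = ∫ x in Ioi (0 : ℝ), ∫ y : ℝ, c (x, y) := by
    rw [← integral_indicator measurableSet_Ioi]
    refine integral_congr_ae (Eventually.of_forall fun x => ?_)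
    by_cases hx : x ∈ Ioi (0 : ℝ)
    · simp only [indicator_of_mem hx]
    · simp only [indicator_of_notMem hx]
      have hx' : x ≤ 0 := not_lt.1 hx
      have : ∀ y, c (x, y) = 0 := fun y => hcτ x y (lt_of_le_of_lt hx' hτ)
      simp [this]
  rw [h5, h6]
  ring

end field

end Pool.Agent.J4.H72.Cone
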