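import Pool.Agent.J4.H72.Cone.Low
import Pool.Agent.J4.H72.Cone.Comp
import Pool.Agent.TH703.Cone.Exist

/-!
# MP_65ff7c_an (S04892): the counterexample
-/

set_option autoImplicit false

open MeasureTheory Set Metric Filter Topology
open scoped ENNReal Pointwise

namespace Pool.Agent.J4.H72.Cone

open Pool.Agent.TH703.Cone (dv Tst PLE t1)

/-- an open convex cone from a convex cone -/
lemma cone_int (Γ : ConvexCone ℝ V) {x : V} (hx : x ∈ interior (Γ : Set V)) {t : ℝ} (ht : 0 < t) :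
    t • x ∈ interior (Γ : Set V) := by
  have h1 : IsOpen (t • interior (Γ : Set V)) := isOpen_interior.smul₀ ht.ne'
  have h2 : t • interior (Γ : Set V) ⊆ Γ := by
    rintro _ ⟨y, hy, rfl⟩
    exact Γ.smul_mem ht (interior_subset hy)
  exact interior_maximal h2 h1 (smul_mem_smul_set hx)

lemma cone_add (Γ : ConvexCone ℝ V) {x y : V} (hx : x ∈ interior (Γ : Set V))
    (hy : y ∈ interior (Γ : Set V)) : x + y ∈ interior (Γ : Set V) := by
  have hconv : Convex ℝ (interior (Γ : Set V)) := Γ.convex.interior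
  have h1 : (1 / 2 : ℝ) • x + (1 / 2 : ℝ) • y ∈ interior (Γ : Set V) :=
    hconv hx hy (by norm_num) (by norm_num) (by norm_num)
  have h2 := cone_int Γ h1 (t := 2) (by norm_num)
  have e : (2 : ℝ) • ((1 / 2 : ℝ) • x + (1 / 2 : ℝ) • y) = x + y := by
    rw [smul_add, smul_smul, smul_smul]
    norm_num
  rwa [e] at h2

/-- **The counterexample.** -/
theorem final {c₀ : ℝ} (hc₀ : 0 < c₀) : ∃ Ω E : Set V, IsOpen Ω ∧ Ω.Nonempty ∧ Convex ℝ Ω ∧
    Bornology.IsBounded Ω ∧ (∀ x ∈ Ω, -x ∈ Ω) ∧ MeasurableSet E ∧ E ⊆ Ω ∧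
    volume E = volume Ω / 2 ∧
    (∀ F : Set V, MeasurableSet F → F ⊆ Ω → volume F = volume E →
      ∀ φ : V → V, Tst Ω φ → ∀ e : ℝ, 0 < e → ∃ ψ : V → V, Tst Ω ψ ∧
        (∫ x in E, dv φ x) ≤ (∫ x in F, dv ψ x) + e) ∧
    ¬ ∃ Γ : ConvexCone ℝ V, volume ((Ω ∩ (Γ : Set V)) \ E) = 0 ∧
      volume ((Ω ∩ {x | -x ∈ Γ}) ∩ E) = 0 ∧
      ENNReal.ofReal c₀ * volume Ω ≤ volume (Ω ∩ (Γ : Set V)) := by
  -- the parameters
  set c' : ℝ := min c₀ 1 with hc'
  have hc'0 : 0 < c' := lt_min hc₀ one_pos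
  have hc'1 : c' ≤ 1 := min_le_right _ _
  set γ : ℝ := c' / 512 with hγd
  have hγ : 0 < γ := by positivity
  have hγ1 : γ ≤ 1 / 512 := by rw [hγd]; linarith
  obtain ⟨ω, hω, hω1, hLL⟩ := LL_lt hγ (by linarith)
  set η : ℝ := 2 / 3 * ω ^ 2 with hη
  have hη0 : 0 < η := by positivity
  have hη1 : η ≤ 2 / 3 := by
    have : ω ^ 2 ≤ 1 := by nlinarith
    rw [hη]; linarith
  obtain ⟨c, hcd, hccs, hcT, hc01, hci⟩ := exists_cut (δ := η / 3) (by positivity)
  obtain ⟨f, M, hf, hfp, hfm, hf1, hM0, hM, hfσ⟩ := exists_step (σ := γ ^ 2 / 4) (by positivity)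
  -- the radius
  obtain ⟨τ, hτ, hcτ⟩ : ∃ τ : ℝ, 0 < τ ∧ ∀ r y, r < τ → c (r, y) = 0 := by
    by_cases hne : (tsupport c).Nonempty
    · obtain ⟨q, hq, hmin⟩ := IsCompact.exists_isMinOn hccs hne
        (continuous_fst.continuousOn : ContinuousOn (fun q : ℝ × ℝ => q.1) (tsupport c))
      refine ⟨q.1, (hcT hq).1, fun r y hr => ?_⟩
      by_contra hcon
      have h1 : (r, y) ∈ tsupport c := subset_tsupport c hcon
      have h2 : q.1 ≤ r := hmin h1
      linarith
    · refine ⟨1, one_pos, fun r y _ => ?_⟩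
      by_contra hcon
      exact hne ⟨(r, y), subset_tsupport c hcon⟩
  -- the thickness
  set ε : ℝ := η / 3 * (γ ^ 2 * τ ^ 2) / (64 * (M + 1)) with hεd
  have hε : 0 < ε := by positivity
  have hεM : 64 * M * ε / (γ ^ 2 * τ ^ 2) ≤ η / 3 := by
    rw [div_le_iff₀ (by positivity)]
    have h1 : ε * (64 * (M + 1)) = η / 3 * (γ ^ 2 * τ ^ 2) := by
      rw [hεd]
      field_simp
    nlinarith
  obtain ⟨κ, hκ0, hκ, hJ⟩ := exists_kappa (γ := γ) hγ hω (by nlinarith)
  have hOm : MeasurableSet (Om γ ε) := (Om_open γ ε).measurableSet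
  have hEpm : MeasurableSet (Ep γ ε ω κ) :=
    hOm.inter (isOpen_lt (by fun_prop) (by fun_prop)).measurableSet
  have hEpO : Ep γ ε ω κ ⊆ Om γ ε := inter_subset_left
  have hωγ : ω ≤ 1 / γ := by
    rw [le_div_iff₀ hγ]
    nlinarith
  have hEpv := vol_Ep hγ hε hωγ hκ0 hJ
  set P : ℝ := 2 * ε * (1 - η) with hPd
  have hP0 : 0 ≤ P := by
    have : 0 ≤ 1 - η := by linarith
    positivity
  have hEpP : PLE (Om γ ε) (Ep γ ε ω κ) P := by
    intro φ hφ
    refine (per_Ep hε φ hφ).trans ?_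
    exact mul_le_mul_of_nonneg_left (hLL κ hκ0 hκ) (by positivity)
  -- the minimizer
  obtain ⟨A, I, hA, hAO, hAv, hAI, hmin⟩ := Pool.Agent.TH703.Cone.exist V (t1 V) (Om γ ε)
    (Ep γ ε ω κ) P (Om_open γ ε) (Om_convex hε) zero_mem_Om (Om_bdd hγ hε) hEpm hEpO hEpP
  have hIP : I ≤ P := hmin _ _ hEpm hEpO rfl hEpP
  have hAP : PLE (Om γ ε) A P := fun φ hφ => (hAI φ hφ).trans hIP
  refine ⟨Om γ ε, A, Om_open γ ε, ⟨0, zero_mem_Om⟩, Om_convex hε, Om_bdd hγ hε,
    fun x hx => Om_symm hx, hA, hAO, hAv.trans hEpv, ?_, ?_⟩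
  · -- minimality
    intro F hF hFO hFv φ hφ e he
    by_contra hcon
    push Not at hcon
    have h1 : PLE (Om γ ε) F ((∫ x in A, dv φ x) - e) := by
      intro ψ hψ
      linarith [hcon ψ hψ]
    have h2 := hmin F _ hF hFO (hFv.trans hAv) h1
    have h3 := hAI φ hφ
    linarith
  -- no cone
  rintro ⟨Γ, hΓ1, hΓ2, hΓ3⟩
  set K : Set V := interior (Γ : Set V) with hK
  have hKo : IsOpen K := isOpen_interior
  have hKsm : ∀ p ∈ K, ∀ t : ℝ, 0 < t → t • p ∈ K := fun p hp t ht => cone_int Γ hp ht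
  have hKadd : ∀ p ∈ K, ∀ q ∈ K, p + q ∈ K := fun p hp q hq => cone_add Γ hp hq
  have hKv : volume (Om γ ε ∩ K) = volume (Om γ ε ∩ (Γ : Set V)) := by
    apply measure_congr
    have hfr : volume (frontier (Γ : Set V)) = 0 := Γ.convex.addHaar_frontier volume
    refine (ae_eq_refl _).inter (interior_ae_eq_of_null_frontier hfr)
  have hK1 : volume ((Om γ ε ∩ K) \ A) = 0 := by
    refine measure_mono_null ?_ hΓ1
    rintro p ⟨⟨h1, h2⟩, h3⟩
    exact ⟨⟨h1, interior_subset h2⟩, h3⟩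
  have hK2 : volume ((Om γ ε ∩ {p | -p ∈ K}) ∩ A) = 0 := by
    refine measure_mono_null ?_ hΓ2
    rintro p ⟨⟨h1, h2⟩, h3⟩
    have h2' : -p ∈ K := h2
    have h4 : -p ∈ (Γ : Set V) := interior_subset h2'
    exact ⟨⟨h1, h4⟩, h3⟩
  -- volumes
  have hbig : ENNReal.ofReal (64 * ε) ≤ volume (Om γ ε ∩ K) := by
    rw [hKv]
    refine le_trans ?_ hΓ3
    calc ENNReal.ofReal (64 * ε) = ENNReal.ofReal c' * ENNReal.ofReal (ε / (8 * γ)) := by
          rw [← ENNReal.ofReal_mul hc'0.le]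
          congr 1
          rw [hγd]
          field_simp
          ring
      _ ≤ ENNReal.ofReal c₀ * volume (Om γ ε) := by
          gcongr
          · exact min_le_left _ _
          · exact vol_Om_ge hγ hε
  have hcase : ENNReal.ofReal (10 * ε) ≤ volume ((Om γ ε ∩ K) ∩ {p | 2 < p 1}) ∨
      ENNReal.ofReal (10 * ε) ≤ volume ((Om γ ε ∩ K) ∩ {p | p 1 < -2}) := by
    by_contra hcon
    push Not at hcon
    have hsub : Om γ ε ∩ K ⊆ (Om γ ε ∩ {p | |p 1| ≤ 2}) ∪
        (((Om γ ε ∩ K) ∩ {p | 2 < p 1}) ∪ ((Om γ ε ∩ K) ∩ {p | p 1 < -2})) := by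
      intro p hp
      by_cases h1 : |p 1| ≤ 2
      · exact Or.inl ⟨hp.1, h1⟩
      · rw [not_le, lt_abs] at h1
        rcases h1 with h1 | h1
        · exact Or.inr (Or.inl ⟨hp, h1⟩)
        · refine Or.inr (Or.inr ⟨hp, ?_⟩)
          change p 1 < -2
          linarith
    have h1 : volume (Om γ ε ∩ K) ≤ ENNReal.ofReal (20 * ε) +
        (ENNReal.ofReal (10 * ε) + ENNReal.ofReal (10 * ε)) := by
      refine (measure_mono hsub).trans ((measure_union_le _ _).trans ?_)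
      refine add_le_add (vol_mid hγ hε) ((measure_union_le _ _).trans ?_)
      exact add_le_add hcon.1.le hcon.2.le
    rw [← ENNReal.ofReal_add (by positivity) (by positivity),
      ← ENNReal.ofReal_add (by positivity) (by positivity)] at h1
    have h2 : ENNReal.ofReal (20 * ε + (10 * ε + 10 * ε)) < ENNReal.ofReal (64 * ε) :=
      (ENNReal.ofReal_lt_ofReal_iff (by positivity)).2 (by linarith)
    exact absurd (hbig.trans h1) (not_le.2 h2)
  -- the lower bound
  have hlow : 2 * ε * ∫ q, c q ≤ P * (1 + 64 * M * ε / (γ ^ 2 * τ ^ 2)) := by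
    rcases hcase with hcase | hcase
    · exact lower hγ (by linarith) hε hP0 hA hAO hAP hKo hKsm hKadd hcase hK1 hK2 hcd hccs hcT
        hc01 hτ hcτ hf hfp hfm hf1 hM0 hM hfσ
    · have hKn : IsOpen {p : V | -p ∈ K} := hKo.preimage continuous_neg
      refine lower (K := {p : V | -p ∈ K}) (E := Om γ ε \ A) hγ (by linarith) hε hP0
        (hOm.diff hA) sdiff_subset (PLE_compl hA hAO hAP) hKn ?_ ?_ ?_ ?_ ?_ hcd hccs hcT
        hc01 hτ hcτ hf hfp hfm hf1 hM0 hM hfσ
      · intro p hp t ht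
        change -(t • p) ∈ K
        rw [← smul_neg]
        exact hKsm _ hp t ht
      · intro p hp q hq
        change -(p + q) ∈ K
        rw [neg_add]
        exact hKadd _ hp _ hq
      · refine hcase.trans (le_of_eq ?_)
        have e : (Om γ ε ∩ K) ∩ {p | p 1 < -2} =
            (fun p : V => -p) ⁻¹' ((Om γ ε ∩ {p | -p ∈ K}) ∩ {p | 2 < p 1}) := by
          ext p
          constructor
          · rintro ⟨⟨h1, h2⟩, h3⟩
            refine ⟨⟨Om_symm h1, ?_⟩, ?_⟩
            · change - -p ∈ K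
              rwa [neg_neg]
            · change 2 < -(p 1)
              have : p 1 < -2 := h3
              linarith
          · rintro ⟨⟨h1, h2⟩, h3⟩
            have h1' := Om_symm h1
            rw [neg_neg] at h1'
            have h2' : - -p ∈ K := h2
            rw [neg_neg] at h2'
            have h3' : 2 < -(p 1) := h3
            refine ⟨⟨h1', h2'⟩, ?_⟩
            change p 1 < -2
            linarith
        rw [e]
        exact Measure.measure_preimage_neg volume _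
      · refine measure_mono_null ?_ hK2
        rintro p ⟨hp1, hp2⟩
        refine ⟨hp1, ?_⟩
        by_contra hcon
        exact hp2 ⟨hp1.1, hcon⟩
      · refine measure_mono_null ?_ hK1
        rintro p ⟨⟨hp1, hp2⟩, hp3⟩
        have hp2' : - -p ∈ K := hp2
        rw [neg_neg] at hp2'
        exact ⟨⟨hp1, hp2'⟩, hp3.2⟩
  have h1 : 2 * ε * (1 - η / 3) ≤ 2 * ε * ∫ q, c q :=
    mul_le_mul_of_nonneg_left hci (by positivity)
  have h2 : P * (1 + 64 * M * ε / (γ ^ 2 * τ ^ 2)) ≤ P * (1 + η / 3) :=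
    mul_le_mul_of_nonneg_left (by linarith) hP0
  have h3 : 2 * ε * (1 - η / 3) ≤ 2 * ε * ((1 - η) * (1 + η / 3)) := by
    calc 2 * ε * (1 - η / 3) ≤ P * (1 + η / 3) := h1.trans (hlow.trans h2)
      _ = 2 * ε * ((1 - η) * (1 + η / 3)) := by rw [hPd]; ring
  have h4 : 1 - η / 3 ≤ (1 - η) * (1 + η / 3) := le_of_mul_le_mul_left h3 (by positivity)
  nlinarith

end Pool.Agent.J4.H72.Cone
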