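import Pool.Agent.J4.H72.Cone.Fib

/-!
# MP_65ff7c_an (S04892): cones of large volume have large fibres over a sector
-/

set_option autoImplicit false

open MeasureTheory Set Metric Filter Topology
open scoped ENNReal

namespace Pool.Agent.J4.H72.Cone

lemma vol_le_planar {A : Set V} (hA : MeasurableSet A) {S1 S2 : Set (ℝ × ℝ)}
    (h1 : MeasurableSet S1) (h2 : MeasurableSet S2) {c1 c2 : ℝ≥0∞}
    (h : ∀ x z, volume (fib A x z) ≤ S1.indicator (fun _ => c1) (x, z) +
      S2.indicator (fun _ => c2) (x, z)) :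
    volume A ≤ c1 * volume S1 + c2 * volume S2 := by
  rw [volume_P3 hA]
  have m1 : Measurable (S1.indicator (fun _ : ℝ × ℝ => c1)) := measurable_const.indicator h1
  have m2 : Measurable (S2.indicator (fun _ : ℝ × ℝ => c2)) := measurable_const.indicator h2
  calc ∫⁻ x : ℝ, ∫⁻ z : ℝ, volume {y : ℝ | pt x z y ∈ A}
      ≤ ∫⁻ x : ℝ, ∫⁻ z : ℝ, (S1.indicator (fun _ => c1) (x, z) +
        S2.indicator (fun _ => c2) (x, z)) :=
        lintegral_mono fun x => lintegral_mono fun z => h x z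
    _ = ∫⁻ q : ℝ × ℝ, (S1.indicator (fun _ => c1) q + S2.indicator (fun _ => c2) q) := by
        have := lintegral_prod (μ := (volume : Measure ℝ)) (ν := (volume : Measure ℝ))
          (fun q : ℝ × ℝ => S1.indicator (fun _ => c1) q + S2.indicator (fun _ => c2) q)
          (m1.add m2).aemeasurable
        rw [Measure.volume_eq_prod, this]
    _ = c1 * volume S1 + c2 * volume S2 := by
        rw [lintegral_add_left m1, lintegral_indicator h1, lintegral_indicator h2,
          setLIntegral_const, setLIntegral_const]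

/-- the box in the plane -/
def Bx (γ : ℝ) : Set (ℝ × ℝ) := Ioo (-1) 1 ×ˢ Ioo 0 (1 / γ)

lemma vol_Bx {γ : ℝ} (hγ : 0 < γ) : volume (Bx γ) = ENNReal.ofReal (2 / γ) := by
  unfold Bx
  rw [Measure.volume_eq_prod, Measure.prod_prod, Real.volume_Ioo, Real.volume_Ioo,
    ← ENNReal.ofReal_mul (by norm_num)]
  congr 1
  ring

/-- a thin sector -/
def Se (γ s : ℝ) : Set (ℝ × ℝ) := {q | q.2 ∈ Ioo 0 (1 / γ) ∧ |q.1 - s * q.2| < γ ^ 2 * q.2}

lemma Se_meas (γ s : ℝ) : MeasurableSet (Se γ s) := by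
  have h1 : MeasurableSet {q : ℝ × ℝ | q.2 ∈ Ioo 0 (1 / γ)} := measurable_snd measurableSet_Ioo
  have h2 : MeasurableSet {q : ℝ × ℝ | |q.1 - s * q.2| < γ ^ 2 * q.2} :=
    (isOpen_lt (by fun_prop) (by fun_prop)).measurableSet
  exact h1.inter h2

lemma vol_Se {γ : ℝ} (hγ : 0 < γ) (s : ℝ) : volume (Se γ s) ≤ ENNReal.ofReal 2 := by
  rw [Measure.volume_eq_prod, Measure.prod_apply_symm (Se_meas γ s)]
  calc ∫⁻ z : ℝ, volume ((fun x => (x, z)) ⁻¹' Se γ s)
      ≤ ∫⁻ z : ℝ, (Ioo 0 (1 / γ)).indicator (fun _ => ENNReal.ofReal (2 * γ)) z := by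
        apply lintegral_mono
        intro z
        by_cases hz : z ∈ Ioo 0 (1 / γ)
        · rw [indicator_of_mem hz]
          have hsub : (fun x => (x, z)) ⁻¹' Se γ s ⊆ Ioo (s * z - γ ^ 2 * z) (s * z + γ ^ 2 * z) := by
            intro x hx
            have h1 : |x - s * z| < γ ^ 2 * z := hx.2
            rw [abs_lt] at h1
            constructor <;> linarith
          refine (measure_mono hsub).trans ?_
          rw [Real.volume_Ioo]
          apply ENNReal.ofReal_le_ofReal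
          have h2 : γ ^ 2 * z ≤ γ := by
            have h3 : γ * z ≤ 1 := by
              have := hz.2
              rw [lt_div_iff₀ hγ] at this
              linarith
            nlinarith
          linarith
        · rw [indicator_of_notMem hz]
          have : (fun x : ℝ => (x, z)) ⁻¹' Se γ s = ∅ := by
            ext x
            simp only [mem_preimage, mem_empty_iff_false, iff_false]
            intro h
            exact hz h.1
          change volume ((fun x : ℝ => (x, z)) ⁻¹' Se γ s) ≤ 0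
          rw [this]
          simp
    _ = ENNReal.ofReal 2 := by
        rw [lintegral_indicator measurableSet_Ioo, setLIntegral_const, Real.volume_Ioo,
          ← ENNReal.ofReal_mul (by positivity)]
        congr 1
        field_simp
        ring

/-- two large fibres with different slopes -/
lemma two_pts {γ ε : ℝ} (hγ : 0 < γ) (hε : 0 < ε) {A : Set V} (hA : MeasurableSet A)
    (hAO : A ⊆ Om γ ε) (hvol : ENNReal.ofReal (10 * ε) ≤ volume (A ∩ {p | 2 < p 1})) :
    ∃ x₁ z₁ x₂ z₂ : ℝ, 2 < z₁ ∧ 2 < z₂ ∧ ENNReal.ofReal (2 * γ * ε) ≤ volume (fib A x₁ z₁) ∧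
      ENNReal.ofReal (2 * γ * ε) ≤ volume (fib A x₂ z₂) ∧ x₁ / z₁ + γ ^ 2 ≤ x₂ / z₂ := by
  by_contra hcon
  push Not at hcon
  -- all slopes are close to `s`
  obtain ⟨s, hs⟩ : ∃ s : ℝ, ∀ x z : ℝ, 2 < z → ENNReal.ofReal (2 * γ * ε) ≤ volume (fib A x z) →
      |x / z - s| < γ ^ 2 := by
    by_cases hex : ∃ x z : ℝ, 2 < z ∧ ENNReal.ofReal (2 * γ * ε) ≤ volume (fib A x z)
    · obtain ⟨x₀, z₀, hz₀, hF₀⟩ := hex
      refine ⟨x₀ / z₀, fun x z hz hF => ?_⟩
      have h1 := hcon x₀ z₀ x z hz₀ hz hF₀ hF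
      have h2 := hcon x z x₀ z₀ hz hz₀ hF hF₀
      rw [abs_lt]
      constructor <;> linarith
    · push Not at hex
      exact ⟨0, fun x z hz hF => absurd hF (not_le.2 (hex x z hz))⟩
  have hAm : MeasurableSet (A ∩ {p : V | 2 < p 1}) :=
    hA.inter (isOpen_lt (by fun_prop) (by fun_prop)).measurableSet
  have hb : ∀ x z, volume (fib (A ∩ {p : V | 2 < p 1}) x z) ≤
      (Se γ s).indicator (fun _ => ENNReal.ofReal (2 * ε)) (x, z) +
      (Bx γ).indicator (fun _ => ENNReal.ofReal (2 * γ * ε)) (x, z) := by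
    intro x z
    by_cases hne : (fib (A ∩ {p : V | 2 < p 1}) x z).Nonempty
    · obtain ⟨y, hy⟩ := hne
      have hz : 2 < z := hy.2
      have hy1 : pt x z y ∈ A := hy.1
      obtain ⟨c1, c2, c3⟩ := Om_coord hγ hε (hAO hy1)
      rw [pt_zero] at c1
      rw [pt_one] at c2
      have hz1 : z < 1 / γ := lt_of_abs_lt c2
      have hmono : volume (fib (A ∩ {p : V | 2 < p 1}) x z) ≤ volume (fib A x z) :=
        measure_mono fun y hy => hy.1
      by_cases hbig : ENNReal.ofReal (2 * γ * ε) ≤ volume (fib A x z)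
      · have h1 := hs x z hz hbig
        have hmem : (x, z) ∈ Se γ s := by
          refine ⟨⟨by linarith, hz1⟩, ?_⟩
          have hz0 : 0 < z := by linarith
          have e : x - s * z = (x / z - s) * z := by field_simp
          change |x - s * z| < γ ^ 2 * z
          rw [e, abs_mul, abs_of_pos hz0]
          exact mul_lt_mul_of_pos_right h1 hz0
        rw [indicator_of_mem hmem]
        refine le_trans ?_ le_self_add
        refine hmono.trans ((measure_mono ?_).trans (vol_fib_Om_le (γ := γ) hε x z))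
        intro y hy
        exact hAO hy
      · have hmem : (x, z) ∈ Bx γ := ⟨abs_lt.1 c1, ⟨by linarith, hz1⟩⟩
        rw [indicator_of_mem hmem]
        refine le_trans ?_ le_add_self
        exact hmono.trans (not_le.1 hbig).le
    · rw [not_nonempty_iff_eq_empty.1 hne, measure_empty]
      exact zero_le
  have h2 := vol_le_planar hAm (Se_meas γ s) (measurableSet_Ioo.prod measurableSet_Ioo) hb
  have h3 : ENNReal.ofReal (2 * ε) * volume (Se γ s) +
      ENNReal.ofReal (2 * γ * ε) * volume (Bx γ) ≤ ENNReal.ofReal (8 * ε) := by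
    calc _ ≤ ENNReal.ofReal (2 * ε) * ENNReal.ofReal 2 +
          ENNReal.ofReal (2 * γ * ε) * ENNReal.ofReal (2 / γ) := by
          rw [vol_Bx hγ]
          gcongr
          exact vol_Se hγ s
      _ = ENNReal.ofReal (8 * ε) := by
          rw [← ENNReal.ofReal_mul (by positivity), ← ENNReal.ofReal_mul (by positivity),
            ← ENNReal.ofReal_add (by positivity) (by positivity)]
          congr 1
          field_simp
          ring
  have h4 : ENNReal.ofReal (8 * ε) < ENNReal.ofReal (10 * ε) :=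
    (ENNReal.ofReal_lt_ofReal_iff (by positivity)).2 (by linarith)
  exact absurd (hvol.trans (h2.trans h3)) (not_le.2 h4)

/-- two points at some distance in a large fibre -/
lemma two_in {S : Set ℝ} {h : ℝ} (hh : 0 < h) (hS : ENNReal.ofReal (2 * h) ≤ volume S) :
    ∃ a ∈ S, ∃ b ∈ S, h ≤ b - a := by
  by_contra hcon
  push Not at hcon
  have h1 : ediam S ≤ ENNReal.ofReal h := by
    apply ediam_le
    intro a ha b hb
    rw [edist_dist, Real.dist_eq]
    apply ENNReal.ofReal_le_ofReal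
    rw [abs_le]
    constructor
    · linarith [hcon a ha b hb]
    · linarith [hcon b hb a ha]
  have h2 := hS.trans ((Real.volume_le_diam S).trans h1)
  have h3 : ENNReal.ofReal h < ENNReal.ofReal (2 * h) :=
    (ENNReal.ofReal_lt_ofReal_iff (by positivity)).2 (by linarith)
  exact absurd h2 (not_le.2 h3)

lemma smul_pt (r x z y : ℝ) : r • pt x z y = pt (r * x) (r * z) (r * y) := by
  ext i
  fin_cases i <;> simp [pt]

/-- **Cones of large volume have large fibres over a sector.** -/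
theorem geo {γ ε : ℝ} (hγ : 0 < γ) (hε : 0 < ε) {K : Set V} (hK : IsOpen K)
    (hsm : ∀ p ∈ K, ∀ t : ℝ, 0 < t → t • p ∈ K) (hadd : ∀ p ∈ K, ∀ q ∈ K, p + q ∈ K)
    (hvol : ENNReal.ofReal (10 * ε) ≤ volume ((Om γ ε ∩ K) ∩ {p | 2 < p 1})) :
    ∃ t : ℝ, |t| ≤ 1 / 2 ∧ ∀ x z : ℝ, 0 < z → z < 2 → |x - t * z| ≤ γ ^ 2 / 2 * z →
      ENNReal.ofReal (γ ^ 2 * ε * z) ≤ volume (fib (Om γ ε ∩ K) x z) := by
  have hAm : MeasurableSet (Om γ ε ∩ K) := ((Om_open γ ε).inter hK).measurableSet
  obtain ⟨x₁, z₁, x₂, z₂, hz₁, hz₂, hF₁, hF₂, hsl⟩ :=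
    two_pts hγ hε hAm inter_subset_left hvol
  -- the convex set
  have hconv : ∀ p ∈ K, ∀ q ∈ K, ∀ a b : ℝ, 0 ≤ a → 0 ≤ b → a + b = 1 → a • p + b • q ∈ K := by
    intro p hp q hq a b ha hb hab
    rcases eq_or_lt_of_le ha with h | h
    · have : b = 1 := by linarith
      rw [← h, this]; simpa using hq
    · rcases eq_or_lt_of_le hb with h' | h'
      · have : a = 1 := by linarith
        rw [← h', this]; simpa using hp
      · exact hadd _ (hsm p hp a h) _ (hsm q hq b h')
  -- points at height one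
  have key : ∀ x z : ℝ, 2 < z → ENNReal.ofReal (2 * γ * ε) ≤ volume (fib (Om γ ε ∩ K) x z) →
      ∃ α β : ℝ, γ ^ 2 * ε ≤ β - α ∧ pt (x / z) 1 α ∈ K ∧ pt (x / z) 1 β ∈ K ∧
        gau γ ε (pt (x / z) 1 α) < 1 / 2 ∧ gau γ ε (pt (x / z) 1 β) < 1 / 2 ∧ |x / z| ≤ 1 / 2 := by
    intro x z hz hF
    rw [mul_assoc] at hF
    obtain ⟨a, ha, b, hb, hab⟩ := two_in (mul_pos hγ hε) hF
    have hz0 : 0 < z := by linarith
    have hiz : 0 < 1 / z := by positivity
    have hiz2 : 1 / z < 1 / 2 := one_div_lt_one_div_of_lt (by norm_num) hz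
    have hz1 : z < 1 / γ := by
      have := (Om_coord hγ hε ha.1).2.1
      rw [pt_one] at this
      exact lt_of_abs_lt this
    have hsc : ∀ y : ℝ, pt x z y ∈ Om γ ε ∩ K → pt (x / z) 1 (y / z) ∈ K ∧
        gau γ ε (pt (x / z) 1 (y / z)) < 1 / 2 := by
      intro y hy
      have e : pt (x / z) 1 (y / z) = (1 / z) • pt x z y := by
        rw [smul_pt]
        congr 1
        · ring
        · field_simp
        · ring
      rw [e, gau_smul hiz.le]
      refine ⟨hsm _ hy.2 _ hiz, ?_⟩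
      have h1 : gau γ ε (pt x z y) < 1 := hy.1
      have h0 := gau_nonneg (γ := γ) hε (pt x z y)
      nlinarith
    obtain ⟨ka, ga⟩ := hsc a ha
    obtain ⟨kb, gb⟩ := hsc b hb
    refine ⟨a / z, b / z, ?_, ka, kb, ga, gb, ?_⟩
    · have h1 : γ * z < 1 := by
        rw [lt_div_iff₀ hγ] at hz1
        linarith
      rw [← sub_div, le_div_iff₀ hz0]
      have h2 : γ ^ 2 * ε * z = γ * ε * (γ * z) := by ring
      rw [h2]
      have h3 : γ * ε * (γ * z) ≤ γ * ε * 1 := by
        apply mul_le_mul_of_nonneg_left h1.le (by positivity)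
      linarith
    · have h1 := abs_le_nr γ (x / z) 1
      have h2 : nr γ (x / z) 1 ≤ gau γ ε (pt (x / z) 1 (a / z)) := by
        unfold gau
        rw [pt_zero, pt_one]
        have : 0 ≤ |pt (x / z) 1 (a / z) 2| / ε := by positivity
        linarith
      linarith
  obtain ⟨α₁, β₁, hl₁, kα₁, kβ₁, gα₁, gβ₁, ht₁⟩ := key x₁ z₁ hz₁ hF₁
  obtain ⟨α₂, β₂, hl₂, kα₂, kβ₂, gα₂, gβ₂, ht₂⟩ := key x₂ z₂ hz₂ hF₂
  set t₁ := x₁ / z₁ with ht₁d
  set t₂ := x₂ / z₂ with ht₂d
  refine ⟨(t₁ + t₂) / 2, ?_, ?_⟩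
  · rw [abs_le] at ht₁ ht₂ ⊢
    constructor <;> linarith
  intro x z hz0 hz2 hxz
  have hγ2 : 0 < γ ^ 2 := by positivity
  have hd : 0 < t₂ - t₁ := by linarith
  -- the barycentric coordinate
  set lam := (x / z - t₁) / (t₂ - t₁) with hlam
  have hxz' : |x / z - (t₁ + t₂) / 2| ≤ γ ^ 2 / 2 := by
    have e : x / z - (t₁ + t₂) / 2 = (x - (t₁ + t₂) / 2 * z) / z := by field_simp
    rw [e, abs_div, abs_of_pos hz0, div_le_iff₀ hz0]
    exact hxz
  rw [abs_le] at hxz'
  have hlam0 : 0 ≤ lam := by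
    apply div_nonneg _ hd.le
    linarith
  have hlam1 : lam ≤ 1 := by
    rw [hlam, div_le_one hd]
    linarith
  have hlx : (1 - lam) * t₁ + lam * t₂ = x / z := by
    have : lam * (t₂ - t₁) = x / z - t₁ := by
      rw [hlam]
      field_simp
    linarith
  set A0 := (1 - lam) * α₁ + lam * α₂ with hA0
  set B0 := (1 - lam) * (β₁ - α₁) + lam * (β₂ - α₂) with hB0
  have hB0' : γ ^ 2 * ε ≤ B0 := by
    have h1 : (1 - lam) * (γ ^ 2 * ε) ≤ (1 - lam) * (β₁ - α₁) :=
      mul_le_mul_of_nonneg_left hl₁ (by linarith)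
    have h2 : lam * (γ ^ 2 * ε) ≤ lam * (β₂ - α₂) := mul_le_mul_of_nonneg_left hl₂ hlam0
    rw [hB0]
    linarith
  have hpos0 : 0 < γ ^ 2 * ε := by positivity
  have hB0p : 0 < B0 := by linarith
  have hsub : Icc (z * A0) (z * (A0 + B0)) ⊆ fib (Om γ ε ∩ K) x z := by
    intro y hy
    set θ := (y / z - A0) / B0 with hθ
    have hθ0 : 0 ≤ θ := by
      apply div_nonneg _ hB0p.le
      have : A0 ≤ y / z := by
        rw [le_div_iff₀ hz0]
        linarith [hy.1]
      linarith
    have hθ1 : θ ≤ 1 := by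
      rw [hθ, div_le_one hB0p]
      have : y / z ≤ A0 + B0 := by
        rw [div_le_iff₀ hz0]
        linarith [hy.2]
      linarith
    have hθy : A0 + θ * B0 = y / z := by
      have : θ * B0 = y / z - A0 := by
        rw [hθ]
        field_simp
      linarith
    set R₁ := (1 - θ) • pt t₁ 1 α₁ + θ • pt t₁ 1 β₁ with hR₁
    set R₂ := (1 - θ) • pt t₂ 1 α₂ + θ • pt t₂ 1 β₂ with hR₂
    have kR₁ : R₁ ∈ K := hconv _ kα₁ _ kβ₁ _ _ (by linarith) hθ0 (by ring)
    have kR₂ : R₂ ∈ K := hconv _ kα₂ _ kβ₂ _ _ (by linarith) hθ0 (by ring)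
    have gc : ∀ P Q : V, ∀ a b : ℝ, 0 ≤ a → 0 ≤ b → a + b = 1 → gau γ ε P < 1 / 2 →
        gau γ ε Q < 1 / 2 → gau γ ε (a • P + b • Q) < 1 / 2 := by
      intro P Q a b ha hb hab hP hQ
      have h1 := gau_add (γ := γ) hε (a • P) (b • Q)
      rw [gau_smul ha, gau_smul hb] at h1
      rcases eq_or_lt_of_le ha with h | h
      · have hb1 : b = 1 := by linarith
        subst hb1
        rw [← h] at h1 ⊢
        simp only [zero_mul, zero_add, one_mul] at h1
        linarith
      · have h2 : a * gau γ ε P < a * (1 / 2) := mul_lt_mul_of_pos_left hP h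
        have h3 : b * gau γ ε Q ≤ b * (1 / 2) := mul_le_mul_of_nonneg_left hQ.le hb
        nlinarith
    have gR₁ : gau γ ε R₁ < 1 / 2 := gc _ _ _ _ (by linarith) hθ0 (by ring) gα₁ gβ₁
    have gR₂ : gau γ ε R₂ < 1 / 2 := gc _ _ _ _ (by linarith) hθ0 (by ring) gα₂ gβ₂
    set R := (1 - lam) • R₁ + lam • R₂ with hR
    have kR : R ∈ K := hconv _ kR₁ _ kR₂ _ _ (by linarith) hlam0 (by ring)
    have gR : gau γ ε R < 1 / 2 := gc _ _ _ _ (by linarith) hlam0 (by ring) gR₁ gR₂
    have hRe : z • R = pt x z y := by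
      rw [hR, hR₁, hR₂]
      simp only [smul_pt, pt_add, smul_add]
      congr 1
      · have : x = z * ((1 - lam) * t₁ + lam * t₂) := by
          rw [hlx]
          field_simp
        rw [this]
        ring
      · ring
      · have : y = z * (A0 + θ * B0) := by
          rw [hθy]
          field_simp
        rw [this, hA0, hB0]
        ring
    refine ⟨?_, ?_⟩
    · rw [← hRe, mem_Om, gau_smul hz0.le]
      have h0 := gau_nonneg (γ := γ) hε R
      nlinarith
    · rw [← hRe]
      exact hsm R kR z hz0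
  refine le_trans ?_ (measure_mono hsub)
  rw [Real.volume_Icc]
  apply ENNReal.ofReal_le_ofReal
  have e : z * (A0 + B0) - z * A0 = z * B0 := by ring
  rw [e]
  calc γ ^ 2 * ε * z = z * (γ ^ 2 * ε) := by ring
    _ ≤ z * B0 := mul_le_mul_of_nonneg_left hB0' hz0.le

end Pool.Agent.J4.H72.Cone
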