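import Pool.Agent.J4.H72.Cone.Geo
import Pool.Agent.J4.H72.Cone.Field

/-!
# MP_65ff7c_an (S04892): the lower bound for the perimeter of trapped sets
-/

set_option autoImplicit false

open MeasureTheory Set Metric Filter Topology
open scoped ENNReal

namespace Pool.Agent.J4.H72.Cone

open Pool.Agent.TH703.Cone (dv Tst PLE)

lemma abs_int_le {D : V → ℝ} {S T : Set V} (hS : MeasurableSet S) (hT : MeasurableSet T)
    (hTf : volume T ≠ ⊤) {G : ℝ} (hG0 : 0 ≤ G) (hG : ∀ p, |D p| ≤ G)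
    (hs : ∀ p ∈ S, D p ≠ 0 → p ∈ T) : |∫ p in S, D p| ≤ G * volume.real T := by
  have h1 : ∫ p in S, D p = ∫ p in S ∩ T, D p := by
    rw [← integral_indicator hS, ← integral_indicator (hS.inter hT)]
    refine integral_congr_ae (Eventually.of_forall fun p => ?_)
    by_cases hp : p ∈ S
    · by_cases hq : D p = 0
      · have e1 : ∀ S' : Set V, S'.indicator D p = 0 := by
          intro S'
          by_cases h : p ∈ S'
          · rw [indicator_of_mem h, hq]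
          · rw [indicator_of_notMem h]
        rw [e1, e1]
      · have hm : p ∈ S ∩ T := ⟨hp, hs p hp hq⟩
        rw [indicator_of_mem hp, indicator_of_mem hm]
    · have hm : p ∉ S ∩ T := fun h => hp h.1
      rw [indicator_of_notMem hp, indicator_of_notMem hm]
  rw [h1]
  have hfin : volume (S ∩ T) < ⊤ := lt_of_le_of_lt (measure_mono inter_subset_right) hTf.lt_top
  have h2 := norm_setIntegral_le_of_norm_le_const (μ := volume) (s := S ∩ T) (f := D) (C := G) hfin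
    (fun p _ => hG p)
  rw [Real.norm_eq_abs] at h2
  refine h2.trans (mul_le_mul_of_nonneg_left ?_ hG0)
  exact measureReal_mono inter_subset_right hTf

/-- the sector -/
def Wt (γ t τ : ℝ) : Set (ℝ × ℝ) :=
  {q | 0 < q.2 ∧ q.2 < 2 ∧ |q.1 - t * q.2| ≤ γ ^ 2 / 2 * q.2 ∧ τ / 2 ≤ q.2}

lemma Wt_meas (γ t τ : ℝ) : MeasurableSet (Wt γ t τ) := by
  have h1 : MeasurableSet {q : ℝ × ℝ | 0 < q.2} :=
    (isOpen_lt (by fun_prop) (by fun_prop)).measurableSet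
  have h2 : MeasurableSet {q : ℝ × ℝ | q.2 < 2} :=
    (isOpen_lt (by fun_prop) (by fun_prop)).measurableSet
  have h3 : MeasurableSet {q : ℝ × ℝ | |q.1 - t * q.2| ≤ γ ^ 2 / 2 * q.2} :=
    (isClosed_le (by fun_prop) (by fun_prop)).measurableSet
  have h4 : MeasurableSet {q : ℝ × ℝ | τ / 2 ≤ q.2} :=
    (isClosed_le (by fun_prop) (by fun_prop)).measurableSet
  exact h1.inter (h2.inter (h3.inter h4))

/-- **The lower bound.** -/
theorem lower {γ ε P τ M : ℝ} {E K : Set V} {c : ℝ × ℝ → ℝ} {f : ℝ → ℝ} (hγ : 0 < γ)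
    (hγ1 : γ ≤ 1) (hε : 0 < ε) (hP : 0 ≤ P) (hE : MeasurableSet E) (hEO : E ⊆ Om γ ε)
    (hPE : PLE (Om γ ε) E P) (hK : IsOpen K) (hsm : ∀ p ∈ K, ∀ t : ℝ, 0 < t → t • p ∈ K)
    (hadd : ∀ p ∈ K, ∀ q ∈ K, p + q ∈ K)
    (hvol : ENNReal.ofReal (10 * ε) ≤ volume ((Om γ ε ∩ K) ∩ {p | 2 < p 1}))
    (hKE : volume ((Om γ ε ∩ K) \ E) = 0) (hKE' : volume ((Om γ ε ∩ {p | -p ∈ K}) ∩ E) = 0)
    (hc : ContDiff ℝ 1 c) (hccs : HasCompactSupport c) (hcT : tsupport c ⊆ Tri)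
    (hc01 : ∀ q, 0 ≤ c q ∧ c q ≤ 1) (hτ : 0 < τ) (hcτ : ∀ r y, r < τ → c (r, y) = 0)
    (hf : ContDiff ℝ 1 f) (hfp : ∀ s, γ ^ 2 / 4 ≤ s → f s = 1)
    (hfm : ∀ s, s ≤ -(γ ^ 2 / 4) → f s = -1) (hf1 : ∀ s, |f s| ≤ 1) (hM0 : 0 ≤ M)
    (hM : ∀ s, |deriv f s| ≤ M) (hfσ : ∀ s, γ ^ 2 / 4 < |s| → deriv f s = 0) :
    2 * ε * ∫ q, c q ≤ P * (1 + 64 * M * ε / (γ ^ 2 * τ ^ 2)) := by
  obtain ⟨t, ht, hfib⟩ := geo hγ hε hK hsm hadd hvol
  have hγ2 : 0 < γ ^ 2 := by positivity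
  have hγ21 : γ ^ 2 ≤ 1 := by nlinarith
  have hσ : 0 < γ ^ 2 / 4 := by positivity
  have hσ1 : γ ^ 2 / 4 ≤ 1 / 4 := by linarith
  have hOm : MeasurableSet (Om γ ε) := (Om_open γ ε).measurableSet
  have hTst : Tst (Om γ ε) (Ff c f t ε) := Ff_Tst hγ hγ1 hε hc hcT hc01 hf hf1 hτ hcτ
  have hle := hPE _ hTst
  set D : V → ℝ := dv (Ff c f t ε) with hD
  have hDi : Integrable D := Pool.Agent.TH703.Cone.Div.integrable_dv hTst.c1 hTst.cs
  set G : ℝ := 2 * M / τ with hG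
  have hG0 : 0 ≤ G := by positivity
  have hDG : ∀ p, |D p| ≤ G := fun p => dv_Ff_le hc hc01 hf hτ hcτ ht hM0 hM p
  have hDs : ∀ p, D p ≠ 0 → p ∈ Om γ ε ∧ |p 0 - t * p 1| ≤ 2 * (γ ^ 2 / 4) * |p 1| ∧ |p 1| < 1 ∧
      τ / 2 ≤ |p 1| := fun p hp => dv_Ff_supp hγ hγ1 hε hc hcT hf hτ hcτ ht hσ hσ1 hfσ hp
  -- the half space
  set U : Set V := {p : V | 0 < p 1} with hU
  have hUm : MeasurableSet U := (isOpen_lt (by fun_prop) (by fun_prop)).measurableSet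
  have hUi : ∫ p in U, D p = 2 * ε * ∫ q, c q :=
    int_Ff hε hc hccs hf hτ hcτ hTst.cs (by linarith : γ ^ 2 / 4 ≤ 1) hfp hfm
  -- the error terms
  set m : ℝ := γ ^ 2 * ε * (τ / 2) with hm
  have hm0 : 0 < m := by positivity
  have hprod := fib_prod hγ hε hE hEO hP hPE
  have hWm := Wt_meas γ t τ
  have hAm : MeasurableSet (Om γ ε ∩ K) := hOm.inter hK.measurableSet
  have hfW : ∀ x z : ℝ, (x, z) ∈ Wt γ t τ →
      ENNReal.ofReal m ≤ volume (fib (Om γ ε ∩ K) x z) := by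
    rintro x z ⟨h1, h2, h3, h4⟩
    refine le_trans (ENNReal.ofReal_le_ofReal ?_) (hfib x z h1 h2 h3)
    exact mul_le_mul_of_nonneg_left h4 (by positivity)
  have err1 := fib_small (W := Wt γ t τ) hE (hOm.diff hE) hAm hWm hm0 hprod hKE hfW
  -- the opposite sector
  set W' : Set (ℝ × ℝ) := {q | (-q.1, -q.2) ∈ Wt γ t τ} with hW'
  have hWm' : MeasurableSet W' := by
    have : Measurable fun q : ℝ × ℝ => ((-q.1, -q.2) : ℝ × ℝ) := by fun_prop
    exact this hWm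
  have hKn : IsOpen {p : V | -p ∈ K} := hK.preimage continuous_neg
  have hAm' : MeasurableSet (Om γ ε ∩ {p : V | -p ∈ K}) := hOm.inter hKn.measurableSet
  have hfW' : ∀ x z : ℝ, (x, z) ∈ W' →
      ENNReal.ofReal m ≤ volume (fib (Om γ ε ∩ {p : V | -p ∈ K}) x z) := by
    intro x z hxz
    refine (hfW (-x) (-z) hxz).trans (le_of_eq ?_)
    have e : fib (Om γ ε ∩ K) (-x) (-z) =
        (fun y => -y) ⁻¹' (fib (Om γ ε ∩ {p : V | -p ∈ K}) x z) := by
      have e0 : ∀ y : ℝ, pt (-x) (-z) y = -pt x z (-y) := by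
        intro y
        ext i
        fin_cases i <;> simp [pt]
      ext y
      constructor
      · intro h
        have h' : pt (-x) (-z) y ∈ Om γ ε ∩ K := h
        rw [e0] at h'
        have h2 := Om_symm h'.1
        rw [neg_neg] at h2
        exact ⟨h2, h'.2⟩
      · intro h
        have h' : pt x z (-y) ∈ Om γ ε ∩ {p : V | -p ∈ K} := h
        change pt (-x) (-z) y ∈ Om γ ε ∩ K
        rw [e0]
        exact ⟨Om_symm h'.1, h'.2⟩
    rw [e]
    exact Measure.measure_preimage_neg volume _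
  have hprod' : ∫⁻ x : ℝ, ∫⁻ z : ℝ, volume (fib (Om γ ε \ E) x z) * volume (fib E x z) ≤
      ENNReal.ofReal (8 * ε ^ 2 * P) := by
    refine le_trans (le_of_eq ?_) hprod
    refine lintegral_congr fun x => lintegral_congr fun z => mul_comm _ _
  have hKE'' : volume ((Om γ ε ∩ {p : V | -p ∈ K}) \ (Om γ ε \ E)) = 0 := by
    refine measure_mono_null ?_ hKE'
    rintro p ⟨hp1, hp2⟩
    refine ⟨hp1, ?_⟩
    by_contra hcon
    exact hp2 ⟨hp1.1, hcon⟩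
  have err2 := fib_small (W := W') (hOm.diff hE) hE hAm' hWm' hm0 hprod' hKE'' hfW'
  set T₁ : Set V := (Om γ ε \ E) ∩ {p | (p 0, p 1) ∈ Wt γ t τ} with hT₁
  set T₂ : Set V := E ∩ {p | (p 0, p 1) ∈ W'} with hT₂
  have hpm : Measurable fun p : V => ((p 0, p 1) : ℝ × ℝ) := by fun_prop
  have hT₁m : MeasurableSet T₁ := (hOm.diff hE).inter (hpm hWm)
  have hT₂m : MeasurableSet T₂ := hE.inter (hpm hWm')
  have hT₁f : volume T₁ ≠ ⊤ := ne_top_of_le_ne_top ENNReal.ofReal_ne_top err1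
  have hT₂f : volume T₂ ≠ ⊤ := ne_top_of_le_ne_top ENNReal.ofReal_ne_top err2
  have hC0 : 0 ≤ 8 * ε ^ 2 * P / m := by positivity
  have hT₁r : volume.real T₁ ≤ 8 * ε ^ 2 * P / m := ENNReal.toReal_le_of_le_ofReal hC0 err1
  have hT₂r : volume.real T₂ ≤ 8 * ε ^ 2 * P / m := ENNReal.toReal_le_of_le_ofReal hC0 err2
  have b1 : |∫ p in U \ E, D p| ≤ G * volume.real T₁ := by
    refine abs_int_le (hUm.diff hE) hT₁m hT₁f hG0 hDG ?_
    rintro p ⟨hp1, hp2⟩ hp3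
    obtain ⟨q1, q2, q3, q4⟩ := hDs p hp3
    have hp1' : 0 < p 1 := hp1
    rw [abs_of_pos hp1'] at q2 q3 q4
    refine ⟨⟨q1, hp2⟩, hp1', by linarith, ?_, q4⟩
    calc |p 0 - t * p 1| ≤ 2 * (γ ^ 2 / 4) * p 1 := q2
      _ = γ ^ 2 / 2 * p 1 := by ring
  have b2 : |∫ p in E \ U, D p| ≤ G * volume.real T₂ := by
    refine abs_int_le (hE.diff hUm) hT₂m hT₂f hG0 hDG ?_
    rintro p ⟨hp1, hp2⟩ hp3
    obtain ⟨q1, q2, q3, q4⟩ := hDs p hp3
    have hp2' : p 1 ≤ 0 := not_lt.1 hp2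
    rw [abs_of_nonpos hp2'] at q2 q3 q4
    refine ⟨hp1, ?_, ?_, ?_, ?_⟩
    · change 0 < -(p 1)
      linarith
    · change -(p 1) < 2
      linarith
    · change |-(p 0) - t * -(p 1)| ≤ γ ^ 2 / 2 * -(p 1)
      have e : -(p 0) - t * -(p 1) = -(p 0 - t * p 1) := by ring
      rw [e, abs_neg]
      calc |p 0 - t * p 1| ≤ 2 * (γ ^ 2 / 4) * -p 1 := q2
        _ = γ ^ 2 / 2 * -p 1 := by ring
    · exact q4
  -- splitting of the integral
  have s1 : (∫ p in E ∩ U, D p) + ∫ p in E \ U, D p = ∫ p in E, D p :=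
    integral_inter_add_sdiff hUm hDi.integrableOn
  have s2 : (∫ p in U ∩ E, D p) + ∫ p in U \ E, D p = ∫ p in U, D p :=
    integral_inter_add_sdiff hE hDi.integrableOn
  rw [inter_comm] at s2
  rw [abs_le] at b1 b2
  have h5 : 2 * ε * ∫ q, c q ≤ P + G * volume.real T₁ + G * volume.real T₂ := by
    rw [← hUi, ← s2]
    linarith [b1.2, b2.1]
  have h6 : G * volume.real T₁ ≤ G * (8 * ε ^ 2 * P / m) := mul_le_mul_of_nonneg_left hT₁r hG0
  have h7 : G * volume.real T₂ ≤ G * (8 * ε ^ 2 * P / m) := mul_le_mul_of_nonneg_left hT₂r hG0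
  have h8 : P + G * (8 * ε ^ 2 * P / m) + G * (8 * ε ^ 2 * P / m) =
      P * (1 + 64 * M * ε / (γ ^ 2 * τ ^ 2)) := by
    rw [hG, hm]
    field_simp
    ring
  linarith

/-- the complement -/
lemma PLE_compl {Ω F : Set V} (hF : MeasurableSet F) (hFΩ : F ⊆ Ω) {C : ℝ} (h : PLE Ω F C) :
    PLE Ω (Ω \ F) C := by
  intro φ hφ
  have hneg : Tst Ω (fun p => - φ p) := by
    refine ⟨hφ.c1.neg, hφ.cs.neg, ?_, ?_⟩
    · rw [show (fun p => - φ p) = -φ from rfl, tsupport_neg]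
      exact hφ.sub
    · intro x
      rw [norm_neg]
      exact hφ.le x
  have h1 := h _ hneg
  have hint : Integrable (dv φ) := Pool.Agent.TH703.Cone.Div.integrable_dv hφ.c1 hφ.cs
  have h0 : ∫ x, dv φ x = 0 := Pool.Agent.TH703.Cone.Div.integral_dv hφ.c1 hφ.cs
  have h2 : ∫ x in Ω, dv φ x = 0 := by
    rw [← h0]
    apply setIntegral_eq_integral_of_forall_compl_eq_zero
    intro x hx
    exact Pool.Agent.TH703.Cone.Div.dv_eq_zero_of_notMem fun hx' => hx (hφ.sub hx')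
  have h3 : ∫ x in Ω \ F, dv φ x = - ∫ x in F, dv φ x := by
    have := setIntegral_sdiff (μ := volume) (f := dv φ) hF hint.integrableOn hFΩ
    rw [this, h2, zero_sub]
  have h4 : ∫ x in F, dv (fun p => - φ p) x = - ∫ x in F, dv φ x := by
    rw [← integral_neg]
    refine integral_congr_ae (Eventually.of_forall fun x => ?_)
    exact Pool.Agent.TH703.Cone.Div.dv_neg φ x
  rw [h3, ← h4]
  exact h1

end Pool.Agent.J4.H72.Cone
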