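import Pool.Agent.J4.H72.Cone.Body

/-!
# MP_65ff7c_an (S04892): the volume above a graph
-/

set_option autoImplicit false

open MeasureTheory Set Metric Filter Topology
open scoped ENNReal

namespace Pool.Agent.J4.H72.Cone

/-- the weight -/
noncomputable def hp (γ x z : ℝ) : ℝ := max 0 (1 - nr γ x z)

lemma hp_nonneg (γ x z : ℝ) : 0 ≤ hp γ x z := le_max_left _ _

lemma hp_le_one (γ x z : ℝ) : hp γ x z ≤ 1 := by
  unfold hp
  have := nr_nonneg γ x z
  exact max_le (by norm_num) (by linarith)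

lemma hp_cont (γ : ℝ) : Continuous fun q : ℝ × ℝ => hp γ q.1 q.2 := by
  unfold hp nr
  fun_prop

lemma hp_le {γ x z : ℝ} (hx : |x| ≤ 1) : hp γ x z ≤ 1 - |x| := by
  unfold hp
  have := abs_le_nr γ x z
  exact max_le (by linarith) (by linarith)

lemma hp_zero_x {γ x z : ℝ} (hx : 1 ≤ |x|) : hp γ x z = 0 := by
  unfold hp
  have := abs_le_nr γ x z
  exact max_eq_left (by linarith)

lemma hp_zero_z {γ x z : ℝ} (hγ : 0 < γ) (hz : 1 / γ ≤ |z|) : hp γ x z = 0 := by
  unfold hp
  have := abs_le_nr' hγ x z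
  have h2 : 1 ≤ γ * |z| := by
    rw [div_le_iff₀ hγ] at hz
    linarith
  exact max_eq_left (by linarith)

lemma hp_ge {γ x z : ℝ} (hγ : 0 < γ) : 1 - |x| - γ * |z| ≤ hp γ x z := by
  have := nr_le hγ.le x z
  exact le_trans (by linarith) (le_max_right _ _)

lemma hp_neg (γ x z : ℝ) : hp γ x (-z) = hp γ x z := by
  simp [hp, nr]

lemma vol_fib_hp {γ ε : ℝ} (hε : 0 < ε) (x z : ℝ) :
    volume (fib (Om γ ε) x z) = ENNReal.ofReal (2 * ε * hp γ x z) := by
  rw [vol_fib_Om hε]
  unfold hp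
  rcases le_total 0 (1 - nr γ x z) with h | h
  · rw [max_eq_right h]
  · rw [max_eq_left h, mul_zero, ENNReal.ofReal_zero, ENNReal.ofReal_eq_zero]
    have : (0 : ℝ) < 2 * ε := by positivity
    nlinarith

/-- primitive of the weight -/
noncomputable def HH (γ x s : ℝ) : ℝ := ∫ z in (0 : ℝ)..s, hp γ x z

lemma hp_cont_z (γ x : ℝ) : Continuous fun z => hp γ x z :=
  (hp_cont γ).comp (by fun_prop : Continuous fun z : ℝ => ((x, z) : ℝ × ℝ))

lemma HH_cont (γ : ℝ) : Continuous fun q : ℝ × ℝ => HH γ q.1 q.2 :=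
  intervalIntegral.continuous_parametric_primitive_of_continuous (hp_cont γ)

lemma HH_nonneg {γ x s : ℝ} (hs : 0 ≤ s) : 0 ≤ HH γ x s :=
  intervalIntegral.integral_nonneg hs fun z _ => hp_nonneg γ x z

lemma HH_neg (γ x s : ℝ) : HH γ x (-s) = - HH γ x s := by
  unfold HH
  have h := intervalIntegral.integral_comp_neg (a := 0) (b := s) (fun z => hp γ x z)
  simp only [hp_neg, neg_zero] at h
  rw [h, intervalIntegral.integral_symm]

lemma HH_zero_x {γ x s : ℝ} (hx : 1 ≤ |x|) : HH γ x s = 0 := by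
  unfold HH
  simp [hp_zero_x hx]

lemma HH_le {γ x s : ℝ} (hx : |x| ≤ 1) (hs : 0 ≤ s) : HH γ x s ≤ s * (1 - |x|) := by
  unfold HH
  calc ∫ z in (0 : ℝ)..s, hp γ x z ≤ ∫ z in (0 : ℝ)..s, (1 - |x|) := by
        apply intervalIntegral.integral_mono_on hs ((hp_cont_z γ x).intervalIntegrable _ _)
          (continuous_const.intervalIntegrable _ _)
        intro z _
        exact hp_le hx
    _ = s * (1 - |x|) := by
        simp
        ring

lemma HH_ge {γ x s : ℝ} (hγ : 0 < γ) (hs : 0 ≤ s) :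
    s * (1 - |x| - γ * s) ≤ HH γ x s := by
  unfold HH
  calc s * (1 - |x| - γ * s) = ∫ z in (0 : ℝ)..s, (1 - |x| - γ * s) := by
        simp
        ring
    _ ≤ ∫ z in (0 : ℝ)..s, hp γ x z := by
        apply intervalIntegral.integral_mono_on hs (continuous_const.intervalIntegrable _ _)
          ((hp_cont_z γ x).intervalIntegrable _ _)
        intro z hz
        refine le_trans ?_ (hp_ge hγ)
        rw [abs_of_nonneg hz.1]
        have := mul_le_mul_of_nonneg_left hz.2 hγ.le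
        linarith

lemma HH_le' {γ x s : ℝ} (hγ : 0 < γ) (hx : |x| ≤ 1) : HH γ x s ≤ s * (1 - |x|) + γ * s ^ 2 := by
  rcases le_total 0 s with hs | hs
  · have := HH_le (γ := γ) hx hs
    have h2 : 0 ≤ γ * s ^ 2 := by positivity
    linarith
  · have h := HH_ge (x := x) (s := -s) hγ (by linarith)
    rw [HH_neg] at h
    nlinarith

lemma lint_Ioi {γ x s : ℝ} (hγ : 0 < γ) (hs : s ≤ 1 / γ) (c : ℝ) (hc : 0 ≤ c) :
    ∫⁻ z in Ioi s, ENNReal.ofReal (c * hp γ x z) =
      ENNReal.ofReal (c * (HH γ x (1 / γ) - HH γ x s)) := by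
  have hcc : Continuous fun z => c * hp γ x z := continuous_const.mul (hp_cont_z γ x)
  have h1 : ∫⁻ z in Ioi s, ENNReal.ofReal (c * hp γ x z) =
      ∫⁻ z in Ioc s (1 / γ), ENNReal.ofReal (c * hp γ x z) := by
    rw [← Ioc_union_Ioi_eq_Ioi hs, lintegral_union measurableSet_Ioi]
    · have : ∫⁻ z in Ioi (1 / γ), ENNReal.ofReal (c * hp γ x z) = 0 := by
        rw [setLIntegral_congr_fun (g := fun _ => 0) measurableSet_Ioi]
        · simp
        · intro z hz
          have hz' : 1 / γ ≤ |z| := le_trans (le_of_lt hz) (le_abs_self z)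
          simp [hp_zero_z hγ hz']
      rw [this, add_zero]
    · rw [Set.disjoint_left]
      intro z hz hz'
      exact absurd hz.2 (not_le.2 hz')
  rw [h1, ← ofReal_integral_eq_lintegral_ofReal]
  · congr 1
    rw [← intervalIntegral.integral_of_le hs, intervalIntegral.integral_const_mul]
    congr 1
    unfold HH
    rw [intervalIntegral.integral_interval_sub_left] <;>
      exact (hp_cont_z γ x).intervalIntegrable _ _
  · exact (hcc.integrableOn_Icc).mono_set Ioc_subset_Icc_self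
  · exact Eventually.of_forall fun z => mul_nonneg hc (hp_nonneg γ x z)

/-- **The volume above a graph.** -/
theorem vol_graph {γ ε : ℝ} (hγ : 0 < γ) (hε : 0 < ε) {w : ℝ → ℝ} (hw : Continuous w)
    (hw1 : ∀ x, w x ≤ 1 / γ) :
    volume (Om γ ε ∩ {p | w (p 0) < p 1}) =
      ENNReal.ofReal (2 * ε * ∫ x in (-1 : ℝ)..1, (HH γ x (1 / γ) - HH γ x (w x))) := by
  have hm : MeasurableSet (Om γ ε ∩ {p : V | w (p 0) < p 1}) :=
    ((Om_open γ ε).inter (isOpen_lt (by fun_prop) (by fun_prop))).measurableSet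
  rw [volume_P3 hm]
  have h1 : ∀ x : ℝ, ∫⁻ z : ℝ, volume {y : ℝ | pt x z y ∈ Om γ ε ∩ {p | w (p 0) < p 1}} =
      ENNReal.ofReal (2 * ε * (HH γ x (1 / γ) - HH γ x (w x))) := by
    intro x
    rw [← lint_Ioi hγ (hw1 x) (2 * ε) (by positivity), ← lintegral_indicator measurableSet_Ioi]
    refine lintegral_congr fun z => ?_
    by_cases hz : z ∈ Ioi (w x)
    · rw [indicator_of_mem hz, ← vol_fib_hp hε]
      congr 1
      ext y
      have : w x < z := hz
      simp [fib, this]
    · rw [indicator_of_notMem hz]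
      have : ¬ w x < z := hz
      simp [this]
  simp_rw [h1]
  have hG : Continuous fun x => 2 * ε * (HH γ x (1 / γ) - HH γ x (w x)) := by
    have e1 : Continuous fun x => HH γ x (1 / γ) :=
      (HH_cont γ).comp (by fun_prop : Continuous fun x : ℝ => ((x, 1 / γ) : ℝ × ℝ))
    have e2 : Continuous fun x => HH γ x (w x) :=
      (HH_cont γ).comp (by fun_prop : Continuous fun x : ℝ => ((x, w x) : ℝ × ℝ))
    fun_prop
  have h2 : ∫⁻ x : ℝ, ENNReal.ofReal (2 * ε * (HH γ x (1 / γ) - HH γ x (w x))) =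
      ∫⁻ x in Ioc (-1 : ℝ) 1, ENNReal.ofReal (2 * ε * (HH γ x (1 / γ) - HH γ x (w x))) := by
    rw [← lintegral_indicator measurableSet_Ioc]
    refine lintegral_congr fun x => ?_
    by_cases hx : x ∈ Ioc (-1 : ℝ) 1
    · rw [indicator_of_mem hx]
    · rw [indicator_of_notMem hx]
      have hx1 : 1 ≤ |x| := by
        by_contra hcon
        push Not at hcon
        rw [abs_lt] at hcon
        exact hx ⟨hcon.1, hcon.2.le⟩
      rw [HH_zero_x hx1, HH_zero_x hx1]
      simp
  rw [h2, ← ofReal_integral_eq_lintegral_ofReal]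
  · congr 1
    rw [← intervalIntegral.integral_of_le (by norm_num), intervalIntegral.integral_const_mul]
  · exact (hG.integrableOn_Icc).mono_set Ioc_subset_Icc_self
  · refine Eventually.of_forall fun x => ?_
    have : 0 ≤ HH γ x (1 / γ) - HH γ x (w x) := by
      unfold HH
      rw [intervalIntegral.integral_interval_sub_left]
      · exact intervalIntegral.integral_nonneg (hw1 x) fun z _ => hp_nonneg γ x z
      all_goals exact (hp_cont_z γ x).intervalIntegrable _ _
    have h3 : (0 : ℝ) ≤ 2 * ε := by positivity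
    exact mul_nonneg h3 this

/-- the volume of the body -/
theorem vol_Om {γ ε : ℝ} (hγ : 0 < γ) (hε : 0 < ε) :
    volume (Om γ ε) = ENNReal.ofReal (2 * ε * ∫ x in (-1 : ℝ)..1, 2 * HH γ x (1 / γ)) := by
  have h := vol_graph (γ := γ) (ε := ε) hγ hε (w := fun _ => -(1 / γ)) continuous_const
    (fun _ => by have : 0 < 1 / γ := by positivity
                 linarith)
  have hset : Om γ ε ∩ {p : V | (fun _ : ℝ => -(1 / γ)) (p 0) < p 1} = Om γ ε := by
    apply inter_eq_left.2
    intro p hp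
    have h1 := (Om_coord hγ hε hp).2.1
    rw [abs_lt] at h1
    exact h1.1
  rw [hset] at h
  rw [h]
  simp only [HH_neg]
  congr 3
  funext x
  ring

/-- the volume condition -/
noncomputable def JJ (γ ω κ : ℝ) : ℝ := ∫ x in (-1 : ℝ)..1, HH γ x (ω - κ * x ^ 2)

lemma JJ_cont (γ ω : ℝ) : Continuous (JJ γ ω) := by
  unfold JJ
  apply intervalIntegral.continuous_parametric_intervalIntegral_of_continuous'
  exact (HH_cont γ).comp
    (by fun_prop : Continuous fun q : ℝ × ℝ => ((q.2, ω - q.1 * q.2 ^ 2) : ℝ × ℝ))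

lemma JJ_zero {γ ω : ℝ} (hω : 0 ≤ ω) : 0 ≤ JJ γ ω 0 := by
  unfold JJ
  apply intervalIntegral.integral_nonneg (by norm_num)
  intro x _
  rw [zero_mul, sub_zero]
  exact HH_nonneg hω

lemma int_even {f : ℝ → ℝ} (hf : Continuous f) (hev : ∀ x, f (-x) = f x) (a : ℝ) :
    ∫ x in (-a)..a, f x = 2 * ∫ x in (0 : ℝ)..a, f x := by
  have h1 := intervalIntegral.integral_add_adjacent_intervals (μ := volume)
    (hf.intervalIntegrable (-a) 0) (hf.intervalIntegrable 0 a)
  have h2 := intervalIntegral.integral_comp_neg (a := 0) (b := a) f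
  simp only [hev, neg_zero] at h2
  rw [← h1, ← h2]
  ring

lemma JJ_seven {γ ω : ℝ} (hγ : 0 < γ) (hω : 0 < ω) (h : γ * ω ≤ 1 / 100) :
    JJ γ ω (7 * ω) ≤ 0 := by
  unfold JJ
  have hc : Continuous fun x : ℝ => HH γ x (ω - 7 * ω * x ^ 2) :=
    (HH_cont γ).comp (by fun_prop : Continuous fun x : ℝ => ((x, ω - 7 * ω * x ^ 2) : ℝ × ℝ))
  have h1 : ∫ x in (-1 : ℝ)..1, HH γ x (ω - 7 * ω * x ^ 2) ≤
      ∫ x in (-1 : ℝ)..1, ((ω - 7 * ω * x ^ 2) * (1 - |x|) + γ * (ω - 7 * ω * x ^ 2) ^ 2) := by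
    apply intervalIntegral.integral_mono_on (by norm_num) (hc.intervalIntegrable _ _)
      (by apply Continuous.intervalIntegrable; fun_prop)
    intro x hx
    exact HH_le' hγ (abs_le.2 hx)
  have h2 : ∫ x in (-1 : ℝ)..1, ((ω - 7 * ω * x ^ 2) * (1 - |x|) +
      γ * (ω - 7 * ω * x ^ 2) ^ 2) = -(ω / 6) + γ * ω ^ 2 * (184 / 15) := by
    rw [int_even (by fun_prop) (by intro x; simp)]
    have h3 : ∫ x in (0 : ℝ)..1, ((ω - 7 * ω * x ^ 2) * (1 - |x|) +
        γ * (ω - 7 * ω * x ^ 2) ^ 2) = ∫ x in (0 : ℝ)..1, ((ω + γ * ω ^ 2) + (-ω) * x +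
        (-(7 * ω) - 14 * γ * ω ^ 2) * x ^ 2 + 7 * ω * x ^ 3 + 49 * γ * ω ^ 2 * x ^ 4) := by
      apply intervalIntegral.integral_congr
      intro x hx
      rw [uIcc_of_le (by norm_num)] at hx
      simp only
      rw [abs_of_nonneg hx.1]
      ring
    rw [h3]
    rw [intervalIntegral.integral_add (by apply Continuous.intervalIntegrable; fun_prop)
        (by apply Continuous.intervalIntegrable; fun_prop),
      intervalIntegral.integral_add (by apply Continuous.intervalIntegrable; fun_prop)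
        (by apply Continuous.intervalIntegrable; fun_prop),
      intervalIntegral.integral_add (by apply Continuous.intervalIntegrable; fun_prop)
        (by apply Continuous.intervalIntegrable; fun_prop),
      intervalIntegral.integral_add (by apply Continuous.intervalIntegrable; fun_prop)
        (by apply Continuous.intervalIntegrable; fun_prop),
      intervalIntegral.integral_const_mul, intervalIntegral.integral_const_mul,
      intervalIntegral.integral_const_mul, intervalIntegral.integral_const_mul,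
      integral_pow, integral_pow, integral_pow, integral_id]
    simp only [intervalIntegral.integral_const, smul_eq_mul]
    norm_num
    ring
  rw [h2] at h1
  have h3 : γ * ω ^ 2 * (184 / 15) ≤ ω / 6 := by
    have : γ * ω * ω ≤ 1 / 100 * ω := mul_le_mul_of_nonneg_right h hω.le
    nlinarith
  linarith

/-- existence of the half volume competitor -/
theorem exists_kappa {γ ω : ℝ} (hγ : 0 < γ) (hω : 0 < ω) (h : γ * ω ≤ 1 / 100) :
    ∃ κ : ℝ, 0 ≤ κ ∧ κ ≤ 7 * ω ∧ JJ γ ω κ = 0 := by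
  have h7 : (0 : ℝ) ≤ 7 * ω := by positivity
  obtain ⟨κ, hκ, h1⟩ := intermediate_value_Icc' h7 (JJ_cont γ ω).continuousOn
    (show (0 : ℝ) ∈ Icc (JJ γ ω (7 * ω)) (JJ γ ω 0) from ⟨JJ_seven hγ hω h, JJ_zero hω.le⟩)
  exact ⟨κ, hκ.1, hκ.2, h1⟩

/-- the competitor -/
def Ep (γ ε ω κ : ℝ) : Set V := Om γ ε ∩ {p | ω - κ * (p 0) ^ 2 < p 1}

theorem vol_Ep {γ ε ω κ : ℝ} (hγ : 0 < γ) (hε : 0 < ε) (hω : ω ≤ 1 / γ) (hκ : 0 ≤ κ)
    (h : JJ γ ω κ = 0) : volume (Ep γ ε ω κ) = volume (Om γ ε) / 2 := by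
  have h1 := vol_graph (γ := γ) (ε := ε) hγ hε (w := fun x => ω - κ * x ^ 2) (by fun_prop)
    (fun x => by
      have : 0 ≤ κ * x ^ 2 := by positivity
      linarith)
  have h2 : volume (Ep γ ε ω κ) = volume (Om γ ε ∩ {p : V | (fun x => ω - κ * x ^ 2) (p 0) < p 1}) :=
    rfl
  rw [h2, h1, vol_Om hγ hε]
  rw [show (2 : ℝ≥0∞) = ENNReal.ofReal 2 by simp, ← ENNReal.ofReal_div_of_pos (by norm_num)]
  congr 1
  have c1 : Continuous fun x => HH γ x (1 / γ) :=
    (HH_cont γ).comp (by fun_prop : Continuous fun x : ℝ => ((x, 1 / γ) : ℝ × ℝ))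
  have c2 : Continuous fun x => HH γ x (ω - κ * x ^ 2) :=
    (HH_cont γ).comp (by fun_prop : Continuous fun x : ℝ => ((x, ω - κ * x ^ 2) : ℝ × ℝ))
  rw [intervalIntegral.integral_sub (c1.intervalIntegrable _ _) (c2.intervalIntegrable _ _),
    intervalIntegral.integral_const_mul]
  unfold JJ at h
  rw [h]
  ring

end Pool.Agent.J4.H72.Cone
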